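import Pool.Agent.Helper83.HLC.WSum
import Pool.Agent.Helper10.ArithSums

/-!
# HLD-1: sums of `W ^ r` over short intervals, of length at least `log Y` at height at most `2 Y`
-/

set_option autoImplicit false

namespace Pool.Agent.Helper83.HLD

open Finset Pool.Agent.Helper83.HLC

theorem prod_primes_le (c : ℝ) (hc : 0 ≤ c) : ∃ C : ℝ, 0 < C ∧ ∀ N : ℕ, 1 ≤ N →
    ∏ p ∈ (Icc 1 N).filter Nat.Prime, (1 + c / (p : ℝ)) ≤ C * N := by
  obtain ⟨P0, hP0⟩ := exists_nat_ge (Real.exp (c + 1))
  have hP0' : Real.exp (c + 1) ≤ P0 := hP0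
  have hP0pos : (0 : ℝ) < P0 := (Real.exp_pos _).trans_le hP0'
  refine ⟨Real.exp (c * P0 + Real.log 4), Real.exp_pos _, fun N hN => ?_⟩
  have hNR : (1 : ℝ) ≤ N := by exact_mod_cast hN
  have hlogN : 0 ≤ Real.log N := Real.log_nonneg hNR
  have h1 : ∏ p ∈ (Icc 1 N).filter Nat.Prime, (1 + c / (p : ℝ)) ≤
      Real.exp (∑ p ∈ (Icc 1 N).filter Nat.Prime, c / (p : ℝ)) := by
    rw [Real.exp_sum]
    refine Finset.prod_le_prod (fun p _ => by positivity) fun p _ => ?_
    rw [add_comm]
    exact Real.add_one_le_exp _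
  have h2 : ∑ p ∈ (Icc 1 N).filter Nat.Prime, c / (p : ℝ) ≤ c * P0 + (Real.log N + Real.log 4) := by
    rw [← Finset.sum_filter_add_sum_filter_not ((Icc 1 N).filter Nat.Prime) (fun p => p ≤ P0)]
    refine add_le_add ?_ ?_
    · calc ∑ p ∈ ((Icc 1 N).filter Nat.Prime).filter (fun p => p ≤ P0), c / (p : ℝ)
          ≤ ∑ _p ∈ ((Icc 1 N).filter Nat.Prime).filter (fun p => p ≤ P0), c := by
            refine Finset.sum_le_sum fun p hp => ?_
            rw [Finset.mem_filter, Finset.mem_filter] at hp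
            have : (1 : ℝ) ≤ p := by exact_mod_cast hp.1.2.one_lt.le
            exact div_le_self hc this
        _ = c * ((((Icc 1 N).filter Nat.Prime).filter (fun p => p ≤ P0)).card : ℝ) := by
            rw [Finset.sum_const, nsmul_eq_mul, mul_comm]
        _ ≤ c * P0 := by
            refine mul_le_mul_of_nonneg_left ?_ hc
            have : (((Icc 1 N).filter Nat.Prime).filter (fun p => p ≤ P0)).card ≤ (Icc 1 P0).card := by
              refine Finset.card_le_card fun p hp => ?_
              rw [Finset.mem_filter, Finset.mem_filter] at hp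
              rw [Finset.mem_Icc]
              exact ⟨hp.1.2.one_lt.le, hp.2⟩
            rw [Nat.card_Icc, Nat.add_sub_cancel] at this
            exact_mod_cast this
    · calc ∑ p ∈ ((Icc 1 N).filter Nat.Prime).filter (fun p => ¬ p ≤ P0), c / (p : ℝ)
          ≤ ∑ p ∈ ((Icc 1 N).filter Nat.Prime).filter (fun p => ¬ p ≤ P0), Real.log p / p := by
            refine Finset.sum_le_sum fun p hp => ?_
            rw [Finset.mem_filter, Finset.mem_filter] at hp
            have hpp : (0 : ℝ) < p := by exact_mod_cast hp.1.2.pos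
            have h3 : (P0 : ℝ) ≤ p := by exact_mod_cast (not_le.1 hp.2).le
            refine div_le_div_of_nonneg_right ?_ hpp.le
            have h4 : c + 1 ≤ Real.log p := by
              rw [Real.le_log_iff_exp_le hpp]
              exact hP0'.trans h3
            linarith
        _ ≤ ∑ p ∈ (Icc 1 N).filter Nat.Prime, Real.log p / p := by
            refine Finset.sum_le_sum_of_subset_of_nonneg (Finset.filter_subset _ _) fun p _ _ => ?_
            exact div_nonneg (Real.log_natCast_nonneg p) (Nat.cast_nonneg p)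
        _ ≤ _ := Pool.Agent.Helper10.mertens_upper N hN
  refine h1.trans ?_
  calc Real.exp (∑ p ∈ (Icc 1 N).filter Nat.Prime, c / (p : ℝ)) ≤
        Real.exp (c * P0 + (Real.log N + Real.log 4)) := Real.exp_le_exp.2 h2
    _ = Real.exp (c * P0 + Real.log 4) * N := by
        rw [show c * (P0 : ℝ) + (Real.log N + Real.log 4) = (c * P0 + Real.log 4) + Real.log N by ring,
          Real.exp_add, Real.exp_log (by linarith)]

theorem card_mult_short (z N : ℕ) (T : Finset ℕ) (hT : ∀ p ∈ T, p.Prime) :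
    (((Ioc z (z + N)).filter (fun d => T ⊆ d.primeFactors)).card : ℝ) ≤ N / (∏ p ∈ T, (p : ℝ)) + 1 := by
  have hpos : 0 < ∏ p ∈ T, p := Finset.prod_pos fun p hp => (hT p hp).pos
  have h1 : ((Ioc z (z + N)).filter (fun d => T ⊆ d.primeFactors)) ⊆
      ((Ioc z (z + N)).filter (fun d => (∏ p ∈ T, p) ∣ d)) := by
    intro d hd
    simp only [mem_filter] at hd ⊢
    refine ⟨hd.1, ?_⟩
    apply Finset.prod_primes_dvd
    · intro p hp
      exact (hT p hp).prime
    · intro p hp
      exact Nat.dvd_of_mem_primeFactors (hd.2 hp)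
  set e := ∏ p ∈ T, p with he
  have h2 : ((Ioc z (z + N)).filter (fun d => e ∣ d)).card ≤ N / e + 1 := by
    have h3 : ((Ioc z (z + N)).filter (fun d => e ∣ d)) ⊆
        (Ioc (z / e) ((z + N) / e)).image (fun j => e * j) := by
      intro d hd
      simp only [mem_filter, mem_Ioc, mem_image] at hd ⊢
      obtain ⟨⟨hd1, hd2⟩, j, rfl⟩ := hd
      refine ⟨j, ⟨?_, ?_⟩, rfl⟩
      · rw [Nat.div_lt_iff_lt_mul hpos, mul_comm]
        exact hd1
      · exact (Nat.le_div_iff_mul_le hpos).2 (by rw [mul_comm]; exact hd2)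
    have h4 : (z + N) / e ≤ z / e + N / e + 1 := by
      rw [Nat.add_div hpos]
      split_ifs <;> omega
    calc _ ≤ _ := card_le_card h3
      _ ≤ (Ioc (z / e) ((z + N) / e)).card := card_image_le
      _ = (z + N) / e - z / e := by simp
      _ ≤ N / e + 1 := by
          rw [tsub_le_iff_right]
          linarith
  calc (((Ioc z (z + N)).filter (fun d => T ⊆ d.primeFactors)).card : ℝ)
      ≤ ((N / e + 1 : ℕ) : ℝ) := by exact_mod_cast (card_le_card h1).trans h2
    _ ≤ (N : ℝ) / ((e : ℕ) : ℝ) + 1 := by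
        push_cast
        have := @Nat.cast_div_le ℝ _ _ _ N e
        linarith
    _ = N / (∏ p ∈ T, (p : ℝ)) + 1 := by rw [he]; push_cast; rfl

theorem card_primeFactors_le (d : ℕ) (hd : d ≠ 0) : (d.primeFactors.card : ℝ) * Real.log 2 ≤ Real.log d := by
  have h1 : (2 : ℝ) ^ d.primeFactors.card ≤ d := by
    have h2 : ∏ p ∈ d.primeFactors, 2 ≤ ∏ p ∈ d.primeFactors, p :=
      Finset.prod_le_prod' fun p hp => (Nat.prime_of_mem_primeFactors hp).two_le
    rw [Finset.prod_const] at h2
    have h3 : ∏ p ∈ d.primeFactors, p ≤ d := Nat.le_of_dvd (Nat.pos_of_ne_zero hd) (Nat.prod_primeFactors_dvd d)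
    exact_mod_cast h2.trans h3
  have h2 := Real.log_le_log (by positivity) h1
  rwa [Real.log_pow] at h2

/-- Sums of `W ^ r` over short intervals. -/
theorem sum_W_short (r : ℕ) : ∃ C : ℝ, 0 < C ∧ ∀ Y : ℕ, 2 ≤ Y → ∀ z N : ℕ, z + N ≤ 2 * Y → Real.log Y ≤ N → 1 ≤ N →
    ∑ d ∈ Ioc z (z + N), W d ^ r ≤ C * N := by
  set c : ℝ := 2 ^ (r + 1) with hc
  have hc0 : 0 ≤ c := by positivity
  obtain ⟨C1, hC1, h1⟩ := prod_primes_le c hc0
  refine ⟨Real.exp (c * 4) * (Real.exp (c * 2) + C1), by positivity, fun Y hY z N hzN hlog hN => ?_⟩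
  have hYR : (2 : ℝ) ≤ Y := by exact_mod_cast hY
  have hNR : (1 : ℝ) ≤ N := by exact_mod_cast hN
  have hN0 : (0 : ℝ) < N := by linarith
  set P : Finset ℕ := (Icc 1 N).filter Nat.Prime with hP
  -- the large primes
  have hlarge : ∀ d ∈ Ioc z (z + N), W d ^ r ≤
      Real.exp (c * 4) * ∏ p ∈ d.primeFactors.filter (fun p => p ∈ P), (1 + c / (p : ℝ)) := by
    intro d hd
    rw [Finset.mem_Ioc] at hd
    have hd0 : d ≠ 0 := by omega
    refine (W_pow_le r d).trans ?_
    rw [← Finset.prod_filter_mul_prod_filter_not d.primeFactors (fun p => p ∈ P), mul_comm]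
    refine mul_le_mul_of_nonneg_right ?_ (Finset.prod_nonneg fun p _ => by positivity)
    calc ∏ p ∈ d.primeFactors.filter (fun p => ¬ p ∈ P), (1 + (2 : ℝ) ^ (r + 1) / (p : ℝ)) ≤
          ∏ p ∈ d.primeFactors.filter (fun p => ¬ p ∈ P), Real.exp (c / N) := by
          refine Finset.prod_le_prod (fun p _ => by positivity) fun p hp => ?_
          rw [Finset.mem_filter] at hp
          have hpp := Nat.prime_of_mem_primeFactors hp.1
          have hNp : N < p := by
            by_contra hcon
            apply hp.2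
            rw [hP, Finset.mem_filter, Finset.mem_Icc]
            exact ⟨⟨hpp.one_lt.le, not_lt.1 hcon⟩, hpp⟩
          have hNpR : (N : ℝ) ≤ p := by exact_mod_cast hNp.le
          rw [← hc]
          have e1 : c / (p : ℝ) ≤ c / N := div_le_div_of_nonneg_left hc0 hN0 hNpR
          have e2 := Real.add_one_le_exp (c / (N : ℝ))
          linarith
      _ = Real.exp ((d.primeFactors.filter (fun p => ¬ p ∈ P)).card * (c / N)) := by
          rw [Finset.prod_const, ← Real.exp_nat_mul]
      _ ≤ Real.exp (c * 4) := by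
          refine Real.exp_le_exp.2 ?_
          have e1 : ((d.primeFactors.filter (fun p => ¬ p ∈ P)).card : ℝ) ≤ d.primeFactors.card := by
            exact_mod_cast Finset.card_le_card (Finset.filter_subset _ _)
          have e2 := card_primeFactors_le d hd0
          have hdR : (0 : ℝ) < d := by exact_mod_cast Nat.pos_of_ne_zero hd0
          have hd2 : (d : ℝ) ≤ (Y : ℝ) ^ 2 := by
            have : (d : ℝ) ≤ 2 * Y := by exact_mod_cast hd.2.trans hzN
            nlinarith
          have e3 : Real.log d ≤ 2 * Real.log Y := by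
            have := Real.log_le_log hdR hd2
            rw [Real.log_pow] at this
            exact_mod_cast this
          have e4 := Real.log_two_gt_d9
          have e5 : (d.primeFactors.card : ℝ) ≤ 4 * N := by
            have : (d.primeFactors.card : ℝ) * Real.log 2 ≤ 2 * N := by linarith
            have h0 : (0 : ℝ) ≤ d.primeFactors.card := Nat.cast_nonneg _
            nlinarith
          rw [mul_div_assoc', div_le_iff₀ hN0]
          nlinarith
  refine (Finset.sum_le_sum hlarge).trans ?_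
  rw [← Finset.mul_sum, mul_assoc]
  refine mul_le_mul_of_nonneg_left ?_ (Real.exp_pos _).le
  have h2 : ∑ d ∈ Ioc z (z + N), ∏ p ∈ d.primeFactors.filter (fun p => p ∈ P), (1 + c / (p : ℝ)) ≤
      ∑ d ∈ Ioc z (z + N), ∑ T ∈ P.powerset, if T ⊆ d.primeFactors then ∏ p ∈ T, c / (p : ℝ) else 0 := by
    apply Finset.sum_le_sum
    intro d _
    refine le_of_eq ?_
    rw [Finset.prod_one_add, ← Finset.sum_filter]
    apply Finset.sum_congr
    · ext T
      simp only [mem_powerset, mem_filter, Finset.subset_iff]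
      constructor
      · intro h
        exact ⟨fun x hx => (h hx).2, fun x hx => (h hx).1⟩
      · intro h x hx
        exact ⟨h.2 hx, h.1 hx⟩
    · intro _ _
      rfl
  refine h2.trans ?_
  rw [Finset.sum_comm]
  have h3 : ∀ T ∈ P.powerset,
      (∑ d ∈ Ioc z (z + N), if T ⊆ d.primeFactors then ∏ p ∈ T, c / (p : ℝ) else 0) ≤
        N * ∏ p ∈ T, c / (p : ℝ) ^ 2 + ∏ p ∈ T, c / (p : ℝ) := by
    intro T hT
    have hTp : ∀ p ∈ T, p.Prime := by
      intro p hp
      have := (mem_powerset.1 hT) hp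
      simp only [hP, mem_filter] at this
      exact this.2
    rw [← Finset.sum_filter, Finset.sum_const, nsmul_eq_mul]
    have h3 := card_mult_short z N T hTp
    have h4 : 0 ≤ ∏ p ∈ T, c / (p : ℝ) := Finset.prod_nonneg fun p _ => by positivity
    calc _ ≤ (N / (∏ p ∈ T, (p : ℝ)) + 1) * ∏ p ∈ T, c / (p : ℝ) :=
          mul_le_mul_of_nonneg_right h3 h4
      _ = _ := by
          rw [add_mul, one_mul]
          congr 1
          rw [div_mul_eq_mul_div, mul_div_assoc, ← Finset.prod_div_distrib]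
          congr 1
          apply Finset.prod_congr rfl
          intro p _
          rw [div_div, sq]
  refine (Finset.sum_le_sum h3).trans ?_
  rw [Finset.sum_add_distrib, ← Finset.mul_sum, ← Finset.prod_one_add, ← Finset.prod_one_add, add_mul]
  refine add_le_add ?_ (h1 N hN)
  rw [mul_comm]
  apply mul_le_mul_of_nonneg_right _ (Nat.cast_nonneg N)
  calc ∏ p ∈ P, (1 + c / (p : ℝ) ^ 2) ≤ ∏ p ∈ P, Real.exp (c / (p : ℝ) ^ 2) := by
        apply Finset.prod_le_prod
        · intro p _
          positivity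
        · intro p _
          rw [add_comm]
          exact Real.add_one_le_exp _
    _ = Real.exp (∑ p ∈ P, c / (p : ℝ) ^ 2) := (Real.exp_sum _ _).symm
    _ ≤ Real.exp (c * 2) := by
        apply Real.exp_le_exp.2
        calc ∑ p ∈ P, c / (p : ℝ) ^ 2 ≤ ∑ p ∈ Icc 1 N, c / (p : ℝ) ^ 2 :=
              Finset.sum_le_sum_of_subset_of_nonneg (Finset.filter_subset _ _)
                (fun p _ _ => by positivity)
          _ = c * ∑ p ∈ Icc 1 N, (1 : ℝ) / (p : ℝ) ^ 2 := by
              rw [Finset.mul_sum]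
              apply Finset.sum_congr rfl
              intro p _
              ring
          _ ≤ c * 2 := by
              apply mul_le_mul_of_nonneg_left _ hc0
              have := sum_inv_sq_le N
              have h5 : (0 : ℝ) ≤ 1 / (N : ℝ) := by positivity
              linarith

/-- The distances to a point. -/
theorem sum_dist_short (r : ℕ) : ∃ C : ℝ, 0 < C ∧ ∀ Y : ℕ, 2 ≤ Y → ∀ z N : ℕ, z + N ≤ Y → Real.log Y ≤ N → 1 ≤ N →
    ∀ x : ℕ, x ≤ Y → ∑ b ∈ (Ioc z (z + N)).filter (fun b => b ≠ x), W (Nat.dist b x) ^ r ≤ C * N := by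
  obtain ⟨C, hC, h⟩ := sum_W_short r
  refine ⟨2 * C, by positivity, fun Y hY z N hzN hlog hN x hx => ?_⟩
  have hW : ∀ d, 0 ≤ W d ^ r := fun d => pow_nonneg (zero_le_one.trans (one_le_W d)) _
  rw [← Finset.sum_filter_add_sum_filter_not ((Ioc z (z + N)).filter (fun b => b ≠ x)) (fun b => x < b)]
  have key : ∀ (G : Finset ℕ) (z' : ℕ), z' + N ≤ 2 * Y → Set.InjOn (fun b => Nat.dist b x) G →
      (∀ b ∈ G, Nat.dist b x ∈ Ioc z' (z' + N)) → ∑ b ∈ G, W (Nat.dist b x) ^ r ≤ C * N := by
    intro G z' hz' hG hm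
    have h1 : ∑ d ∈ G.image (fun b => Nat.dist b x), W d ^ r = ∑ b ∈ G, W (Nat.dist b x) ^ r :=
      Finset.sum_image hG
    rw [← h1]
    refine le_trans (Finset.sum_le_sum_of_subset_of_nonneg ?_ fun d _ _ => hW d) (h Y hY z' N hz' hlog hN)
    intro d hd
    rw [Finset.mem_image] at hd
    obtain ⟨b, hb, rfl⟩ := hd
    exact hm b hb
  have h1 := key (((Ioc z (z + N)).filter (fun b => b ≠ x)).filter (fun b => x < b)) (z - x) (by omega) (by
    intro b hb b' hb' hbb
    rw [Finset.mem_coe, Finset.mem_filter] at hb hb'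
    have hbb' : Nat.dist b x = Nat.dist b' x := hbb
    unfold Nat.dist at hbb'
    omega) (by
    intro b hb
    rw [Finset.mem_filter, Finset.mem_filter, Finset.mem_Ioc] at hb
    rw [Finset.mem_Ioc]
    unfold Nat.dist
    omega)
  have h2 := key (((Ioc z (z + N)).filter (fun b => b ≠ x)).filter (fun b => ¬ x < b)) (x - (z + N + 1)) (by omega) (by
    intro b hb b' hb' hbb
    rw [Finset.mem_coe, Finset.mem_filter] at hb hb'
    have hbb' : Nat.dist b x = Nat.dist b' x := hbb
    unfold Nat.dist at hbb'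
    omega) (by
    intro b hb
    rw [Finset.mem_filter, Finset.mem_filter, Finset.mem_Ioc] at hb
    rw [Finset.mem_Ioc]
    unfold Nat.dist
    omega)
  linarith

end Pool.Agent.Helper83.HLD
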