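import Pool.Agent.Helper83.HLC.Weighted
import Pool.Agent.Helper83.HLD.SW

/-!
# HLD-2: moments: prime tuples with some shifts in intervals
-/

set_option autoImplicit false

namespace Pool.Agent.Helper83.HLD

open Finset Pool.Agent.Helper83.HLC

/-- The weight of a set of shifts. -/
noncomputable def wt (p : ℕ) (s : Finset ℕ) : ℝ := 1 + ∑ x ∈ s, ∑ y ∈ s, W (Nat.dist x y) ^ p

theorem W_pow_nonneg (p d : ℕ) : 0 ≤ W d ^ p := pow_nonneg (zero_le_one.trans (one_le_W d)) _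

theorem one_le_wt (p : ℕ) (s : Finset ℕ) : 1 ≤ wt p s := by
  unfold wt
  have : 0 ≤ ∑ x ∈ s, ∑ y ∈ s, W (Nat.dist x y) ^ p :=
    Finset.sum_nonneg fun _ _ => Finset.sum_nonneg fun _ _ => W_pow_nonneg _ _
  linarith

theorem W_zero : W 0 = 1 := by simp [W]

theorem wt_insert (p : ℕ) (s : Finset ℕ) (b : ℕ) (hb : b ∉ s) :
    wt p (insert b s) = wt p s + 1 + 2 * ∑ x ∈ s, W (Nat.dist b x) ^ p := by
  unfold wt
  rw [Finset.sum_insert hb, Finset.sum_insert hb, Nat.dist_self, W_zero, one_pow]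
  have h1 : ∑ x ∈ s, ∑ y ∈ insert b s, W (Nat.dist x y) ^ p =
      ∑ x ∈ s, W (Nat.dist b x) ^ p + ∑ x ∈ s, ∑ y ∈ s, W (Nat.dist x y) ^ p := by
    rw [← Finset.sum_add_distrib]
    refine Finset.sum_congr rfl fun x _ => ?_
    rw [Finset.sum_insert hb, Nat.dist_comm]
  rw [h1]
  ring

theorem prod_le_one_add {ι : Type*} (S : Finset ι) (y : ι → ℝ) (hy : ∀ x, 0 ≤ y x) :
    ∏ x ∈ S, y x ≤ 1 + ∑ x ∈ S, y x ^ S.card := by
  rcases S.eq_empty_or_nonempty with rfl | hS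
  · simp
  · obtain ⟨m, hm, hmax⟩ := S.exists_max_image y hS
    calc ∏ x ∈ S, y x ≤ ∏ _x ∈ S, y m := Finset.prod_le_prod (fun x _ => hy x) hmax
      _ = y m ^ S.card := by rw [Finset.prod_const]
      _ ≤ ∑ x ∈ S, y x ^ S.card :=
        Finset.single_le_sum (f := fun x => y x ^ S.card) (fun x _ => pow_nonneg (hy x) _) hm
      _ ≤ _ := by linarith

theorem prod_offDiag_le (m p j : ℕ) (s : Finset ℕ) (hs : s.card = m) (hj : j * m ^ 2 ≤ p) :
    ∏ x ∈ s.offDiag, W (Nat.dist x.1 x.2) ^ j ≤ wt p s := by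
  refine (prod_le_one_add s.offDiag (fun x => W (Nat.dist x.1 x.2) ^ j) fun x => W_pow_nonneg _ _).trans ?_
  unfold wt
  refine add_le_add le_rfl ?_
  rw [← Finset.sum_product']
  have hcard : s.offDiag.card ≤ m ^ 2 := by
    rw [Finset.offDiag_card, hs, sq]
    omega
  calc ∑ x ∈ s.offDiag, (W (Nat.dist x.1 x.2) ^ j) ^ s.offDiag.card ≤
        ∑ x ∈ s.offDiag, W (Nat.dist x.1 x.2) ^ p := by
        refine Finset.sum_le_sum fun x _ => ?_
        rw [← pow_mul]
        exact pow_le_pow_right₀ (one_le_W _) ((Nat.mul_le_mul_left j hcard).trans hj)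
    _ ≤ ∑ x ∈ s ×ˢ s, W (Nat.dist x.1 x.2) ^ p := by
        refine Finset.sum_le_sum_of_subset_of_nonneg ?_ fun x _ _ => W_pow_nonneg _ _
        intro x hx
        rw [Finset.mem_offDiag] at hx
        rw [Finset.mem_product]
        exact ⟨hx.1, hx.2.1⟩

/-- The product of the von Mangoldt functions over a set. -/
noncomputable def PS (s : Finset ℕ) (n : ℕ) : ℝ := ∏ i ∈ s, ArithmeticFunction.vonMangoldt (n + i)

theorem PS_nonneg (s : Finset ℕ) (n : ℕ) : 0 ≤ PS s n :=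
  Finset.prod_nonneg fun _ _ => ArithmeticFunction.vonMangoldt_nonneg

theorem tuples (m p : ℕ) (hp : 2 * m ^ 3 ≤ p) : ∃ C : ℝ, 0 < C ∧ ∀ Y : ℕ, 2 ≤ Y → ∀ s : Finset ℕ, s.card = m →
    (∀ i ∈ s, i ≤ Y) → (∑ n ∈ Icc 1 Y, PS s n ≤ C * Y * wt p s) ∧
      ((∑ n ∈ Icc 1 Y, PS s n) ^ 2 ≤ C * Y ^ 2 * wt p s) := by
  obtain ⟨C, hC, h⟩ := sum_tuples m
  refine ⟨C + C ^ 2, by positivity, fun Y hY s hs hsY => ?_⟩
  have h1 := h Y hY s hs hsY
  have hYR : (0 : ℝ) ≤ Y := Nat.cast_nonneg _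
  have hw := one_le_wt p s
  have hm3 : m ^ 3 = m * m ^ 2 := by ring
  have h2 := prod_offDiag_le m p m s hs (by rw [← hm3]; omega)
  have h3 := prod_offDiag_le m p (2 * m) s hs (by
    have : 2 * m * m ^ 2 = 2 * m ^ 3 := by ring
    omega)
  have h0 : 0 ≤ ∑ n ∈ Icc 1 Y, PS s n := Finset.sum_nonneg fun _ _ => PS_nonneg _ _
  have hP0 : 0 ≤ ∏ x ∈ s.offDiag, W (Nat.dist x.1 x.2) ^ m := Finset.prod_nonneg fun _ _ => W_pow_nonneg _ _
  have h4 : ∑ n ∈ Icc 1 Y, PS s n ≤ C * Y * ∏ x ∈ s.offDiag, W (Nat.dist x.1 x.2) ^ m := h1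
  constructor
  · calc ∑ n ∈ Icc 1 Y, PS s n ≤ C * Y * wt p s := h4.trans (mul_le_mul_of_nonneg_left h2 (by positivity))
      _ ≤ (C + C ^ 2) * Y * wt p s := by
          refine mul_le_mul_of_nonneg_right (mul_le_mul_of_nonneg_right ?_ hYR) (by linarith)
          nlinarith
  · calc (∑ n ∈ Icc 1 Y, PS s n) ^ 2 ≤ (C * Y * ∏ x ∈ s.offDiag, W (Nat.dist x.1 x.2) ^ m) ^ 2 :=
          pow_le_pow_left₀ h0 h4 2
      _ = C ^ 2 * Y ^ 2 * ∏ x ∈ s.offDiag, W (Nat.dist x.1 x.2) ^ (2 * m) := by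
          rw [mul_pow, mul_pow, ← Finset.prod_pow]
          congr 1
          refine Finset.prod_congr rfl fun x _ => ?_
          rw [← pow_mul, mul_comm m 2]
      _ ≤ C ^ 2 * Y ^ 2 * wt p s := mul_le_mul_of_nonneg_left h3 (by positivity)
      _ ≤ (C + C ^ 2) * Y ^ 2 * wt p s := by
          refine mul_le_mul_of_nonneg_right (mul_le_mul_of_nonneg_right ?_ (by positivity)) (by linarith)
          linarith

theorem sum_wt (m p : ℕ) : ∃ C : ℝ, 0 < C ∧ ∀ Y : ℕ, 2 ≤ Y → ∀ z N : ℕ, z + N ≤ Y → Real.log Y ≤ N → 1 ≤ N →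
    ∀ s : Finset ℕ, s.card = m → (∀ x ∈ s, x ≤ Y) →
      ∑ b ∈ (Ioc z (z + N)).filter (fun b => b ∉ s), wt p (insert b s) ≤ C * N * wt p s := by
  obtain ⟨C, hC, h⟩ := sum_dist_short p
  refine ⟨2 + 2 * m * C, by positivity, fun Y hY z N hzN hlog hN s hs hsY => ?_⟩
  set J := (Ioc z (z + N)).filter (fun b => b ∉ s) with hJ
  have hw := one_le_wt p s
  have hNR : (0 : ℝ) ≤ N := Nat.cast_nonneg _
  have h1 : ∑ b ∈ J, wt p (insert b s) = ∑ b ∈ J, (wt p s + 1) + 2 * ∑ x ∈ s, ∑ b ∈ J, W (Nat.dist b x) ^ p := by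
    rw [Finset.sum_comm, Finset.mul_sum, ← Finset.sum_add_distrib]
    refine Finset.sum_congr rfl fun b hb => ?_
    rw [hJ, Finset.mem_filter] at hb
    exact wt_insert p s b hb.2
  have h2 : ∑ _b ∈ J, (wt p s + 1) ≤ N * (2 * wt p s) := by
    rw [Finset.sum_const, nsmul_eq_mul]
    have hc : (J.card : ℝ) ≤ N := by
      have : J.card ≤ (Ioc z (z + N)).card := Finset.card_le_card (Finset.filter_subset _ _)
      rw [Nat.card_Ioc, Nat.add_sub_cancel_left] at this
      exact_mod_cast this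
    exact mul_le_mul hc (by linarith) (by linarith) hNR
  have h3 : ∑ x ∈ s, ∑ b ∈ J, W (Nat.dist b x) ^ p ≤ m * (C * N) := by
    calc ∑ x ∈ s, ∑ b ∈ J, W (Nat.dist b x) ^ p ≤ ∑ _x ∈ s, C * N := by
          refine Finset.sum_le_sum fun x hx => le_trans ?_ (h Y hY z N hzN hlog hN x (hsY x hx))
          refine Finset.sum_le_sum_of_subset_of_nonneg ?_ fun _ _ _ => W_pow_nonneg _ _
          intro b hb
          rw [hJ, Finset.mem_filter] at hb
          rw [Finset.mem_filter]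
          exact ⟨hb.1, fun hbx => hb.2 (hbx ▸ hx)⟩
      _ = m * (C * N) := by rw [Finset.sum_const, nsmul_eq_mul, hs]
  rw [h1]
  have h4 : (m : ℝ) * (C * N) ≤ m * (C * N) * wt p s := le_mul_of_one_le_right (by positivity) hw
  nlinarith

/-- A box. -/
def box {q : ℕ} (z N : Fin q → ℕ) : Finset (Fin q → ℕ) := Fintype.piFinset (fun i => Ioc (z i) (z i + N i))

theorem mem_box {q : ℕ} {z N β : Fin q → ℕ} : β ∈ box z N ↔ ∀ i, z i < β i ∧ β i ≤ z i + N i := by
  unfold box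
  rw [Fintype.mem_piFinset]
  simp only [Finset.mem_Ioc]

theorem card_box {q : ℕ} (z N : Fin q → ℕ) : ((box z N).card : ℝ) = ∏ i, (N i : ℝ) := by
  unfold box
  rw [Fintype.card_piFinset]
  push_cast
  refine Finset.prod_congr rfl fun i _ => ?_
  rw [Nat.card_Ioc, Nat.add_sub_cancel_left]

theorem sum_box_succ {q : ℕ} (z N : Fin (q + 1) → ℕ) (F : (Fin (q + 1) → ℕ) → ℝ) :
    ∑ β ∈ box z N, F β = ∑ b ∈ Ioc (z 0) (z 0 + N 0),
      ∑ β ∈ box (fun i => z i.succ) (fun i => N i.succ), F (Fin.cons b β) := by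
  rw [← Finset.sum_product']
  refine Finset.sum_nbij' (fun β => (β 0, fun i => β i.succ)) (fun x => Fin.cons x.1 x.2) ?_ ?_ ?_ ?_ ?_
  · intro β hβ
    rw [mem_box] at hβ
    rw [Finset.mem_product, mem_box, Finset.mem_Ioc]
    exact ⟨hβ 0, fun i => hβ i.succ⟩
  · intro x hx
    rw [Finset.mem_product, mem_box, Finset.mem_Ioc] at hx
    rw [mem_box]
    intro i
    refine Fin.cases ?_ (fun j => ?_) i
    · simpa using hx.1
    · simpa using hx.2 j
  · intro β _
    exact Fin.cons_self_tail β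
  · intro x _
    simp
  · intro β _
    congr 1
    exact (Fin.cons_self_tail β).symm

/-- All the shifts distinct and outside `s`. -/
def Gd {q : ℕ} (s : Finset ℕ) (β : Fin q → ℕ) : Prop := Function.Injective β ∧ ∀ j, β j ∉ s

theorem Gd_cons {q : ℕ} (s : Finset ℕ) (b : ℕ) (β : Fin q → ℕ) :
    Gd s (Fin.cons b β : Fin (q + 1) → ℕ) ↔ b ∉ s ∧ Gd (insert b s) β := by
  unfold Gd
  rw [Fin.cons_injective_iff, Fin.forall_fin_succ]
  simp only [Fin.cons_zero, Fin.cons_succ, Set.mem_range, not_exists, Finset.mem_insert, not_or]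
  constructor
  · rintro ⟨⟨h1, h2⟩, h3, h4⟩
    exact ⟨h3, h2, fun j => ⟨h1 j, h4 j⟩⟩
  · rintro ⟨h3, h2, h5⟩
    exact ⟨⟨fun j => (h5 j).1, h2⟩, h3, fun j => (h5 j).2⟩

/-- The correlation. -/
noncomputable def FF {q : ℕ} (Y : ℕ) (s : Finset ℕ) (β : Fin q → ℕ) : ℝ := ∑ n ∈ Icc 1 Y, PS s n * GG β n

theorem FF_nonneg {q : ℕ} (Y : ℕ) (s : Finset ℕ) (β : Fin q → ℕ) : 0 ≤ FF Y s β :=
  Finset.sum_nonneg fun _ _ => mul_nonneg (PS_nonneg _ _) (GG_nonneg _ _)

theorem GG_cons {q : ℕ} (b : ℕ) (β : Fin q → ℕ) (n : ℕ) :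
    GG (Fin.cons b β : Fin (q + 1) → ℕ) n = ArithmeticFunction.vonMangoldt (n + b) * GG β n := by
  unfold GG
  rw [Fin.prod_univ_succ]
  simp only [Fin.cons_zero, Fin.cons_succ]

theorem FF_cons_not_mem {q : ℕ} (Y : ℕ) (s : Finset ℕ) (b : ℕ) (hb : b ∉ s) (β : Fin q → ℕ) :
    FF Y s (Fin.cons b β : Fin (q + 1) → ℕ) = FF Y (insert b s) β := by
  unfold FF
  refine Finset.sum_congr rfl fun n _ => ?_
  rw [GG_cons]
  unfold PS
  rw [Finset.prod_insert hb]
  ring

theorem vm_le (Y n i : ℕ) (hY : 2 ≤ Y) (hn : n ∈ Icc 1 Y) (hi : i ≤ Y) :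
    ArithmeticFunction.vonMangoldt (n + i) ≤ 2 * Real.log Y := by
  rw [Finset.mem_Icc] at hn
  refine ArithmeticFunction.vonMangoldt_le_log.trans ?_
  have hX0 : (2 : ℝ) ≤ Y := by exact_mod_cast hY
  have h1 : ((n + i : ℕ) : ℝ) ≤ Y * Y := by
    have : n + i ≤ Y * Y := by nlinarith
    exact_mod_cast this
  have h0 : (0 : ℝ) < ((n + i : ℕ) : ℝ) := by
    have : 0 < n + i := by omega
    exact_mod_cast this
  calc Real.log ((n + i : ℕ) : ℝ) ≤ Real.log (Y * Y) := Real.log_le_log h0 h1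
    _ = 2 * Real.log Y := by
      rw [Real.log_mul (by linarith) (by linarith)]
      ring

theorem FF_cons_le {q : ℕ} (Y : ℕ) (hY : 2 ≤ Y) (s : Finset ℕ) (b : ℕ) (hb : b ≤ Y) (β : Fin q → ℕ) :
    FF Y s (Fin.cons b β : Fin (q + 1) → ℕ) ≤ 2 * Real.log Y * FF Y s β := by
  unfold FF
  rw [Finset.mul_sum]
  refine Finset.sum_le_sum fun n hn => ?_
  rw [GG_cons]
  have h1 := vm_le Y n b hY hn hb
  have h2 := mul_nonneg (PS_nonneg s n) (GG_nonneg β n)
  calc PS s n * (ArithmeticFunction.vonMangoldt (n + b) * GG β n) =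
        ArithmeticFunction.vonMangoldt (n + b) * (PS s n * GG β n) := by ring
    _ ≤ _ := mul_le_mul_of_nonneg_right h1 h2

theorem step_sum (J s : Finset ℕ) (Φ Ψ : ℕ → ℝ) (A : ℝ) (hA : 0 ≤ A) (h1 : ∀ b ∈ J, b ∈ s → Φ b ≤ A)
    (h2 : ∀ b ∈ J, b ∉ s → Φ b ≤ Ψ b) :
    ∑ b ∈ J, Φ b ≤ s.card * A + ∑ b ∈ J.filter (fun b => b ∉ s), Ψ b := by
  rw [← Finset.sum_filter_add_sum_filter_not J (fun b => b ∈ s)]
  refine add_le_add ?_ ?_
  · calc ∑ b ∈ J.filter (fun b => b ∈ s), Φ b ≤ ∑ _b ∈ J.filter (fun b => b ∈ s), A := by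
          refine Finset.sum_le_sum fun b hb => ?_
          rw [Finset.mem_filter] at hb
          exact h1 b hb.1 hb.2
      _ = (J.filter (fun b => b ∈ s)).card * A := by rw [Finset.sum_const, nsmul_eq_mul]
      _ ≤ s.card * A := by
          refine mul_le_mul_of_nonneg_right ?_ hA
          have : (J.filter (fun b => b ∈ s)).card ≤ s.card :=
            Finset.card_le_card fun b hb => (Finset.mem_filter.1 hb).2
          exact_mod_cast this
  · refine Finset.sum_le_sum fun b hb => ?_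
    rw [Finset.mem_filter] at hb
    exact h2 b hb.1 hb.2

open Classical in
/-- The moments. -/
theorem moments (M p : ℕ) (hp : 2 * M ^ 3 ≤ p) : ∀ q m : ℕ, m + q ≤ M → ∃ C : ℝ, 0 < C ∧ ∀ Y : ℕ, 2 ≤ Y →
    ∀ z N : Fin q → ℕ, (∀ i, z i + N i ≤ Y) → (∀ i, Real.log Y ≤ N i) → (∀ i, 1 ≤ N i) →
    ∀ s : Finset ℕ, s.card = m → (∀ x ∈ s, x ≤ Y) →
      (∑ β ∈ box z N, FF Y s β ≤ C * (∏ i, (N i : ℝ)) * Y * wt p s) ∧
      (∀ κ : ℝ, 0 ≤ κ → (∀ i, Real.log Y ≤ κ * N i) →
        ∑ β ∈ box z N, (if Gd s β then 0 else FF Y s β) ≤ C * κ * (∏ i, (N i : ℝ)) * Y * wt p s) ∧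
      (∑ β ∈ box z N, (if Gd s β then FF Y s β ^ 2 else 0) ≤ C * (∏ i, (N i : ℝ)) * Y ^ 2 * wt p s) := by
  intro q
  induction q with
  | zero =>
    intro m hm
    obtain ⟨C, hC, h⟩ := tuples m p (by
      have : m ^ 3 ≤ M ^ 3 := Nat.pow_le_pow_left (by omega) 3
      omega)
    refine ⟨C, hC, fun Y hY z N _ _ _ s hs hsY => ?_⟩
    obtain ⟨h1, h2⟩ := h Y hY s hs hsY
    have hbox : box z N = {Fin.elim0} := by
      ext β
      rw [mem_box, Finset.mem_singleton]
      constructor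
      · intro _
        exact Subsingleton.elim _ _
      · intro _ i
        exact i.elim0
    have hGd : Gd s (Fin.elim0 : Fin 0 → ℕ) := ⟨fun i => i.elim0, fun i => i.elim0⟩
    have hFF : FF Y s (Fin.elim0 : Fin 0 → ℕ) = ∑ n ∈ Icc 1 Y, PS s n := by
      unfold FF GG
      refine Finset.sum_congr rfl fun n _ => ?_
      rw [Finset.univ_eq_empty, Finset.prod_empty, mul_one]
    rw [hbox]
    simp only [Finset.sum_singleton, hFF, if_pos hGd, Finset.univ_eq_empty, Finset.prod_empty, mul_one]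
    refine ⟨h1, fun κ hκ _ => ?_, h2⟩
    have := one_le_wt p s
    positivity
  | succ q ih =>
    intro m hm
    obtain ⟨C1, hC1, h1⟩ := ih m (by omega)
    obtain ⟨C2, hC2, h2⟩ := ih (m + 1) (by omega)
    obtain ⟨C3, hC3, h3⟩ := sum_wt m p
    refine ⟨2 * m * C1 + C2 * C3, by positivity, fun Y hY z N hz hlog hN s hs hsY => ?_⟩
    have hYR : (2 : ℝ) ≤ Y := by exact_mod_cast hY
    have hlog0 : 0 ≤ Real.log Y := Real.log_nonneg (by linarith)
    have hw := one_le_wt p s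
    set Q : ℝ := ∏ i : Fin q, (N i.succ : ℝ) with hQ
    have hQ0 : 0 ≤ Q := Finset.prod_nonneg fun _ _ => Nat.cast_nonneg _
    have hQN : ∏ i, (N i : ℝ) = N 0 * Q := by rw [Fin.prod_univ_succ]
    have hN0 : (0 : ℝ) ≤ N 0 := Nat.cast_nonneg _
    obtain ⟨a1, a2, a3⟩ := h1 Y hY (fun i => z i.succ) (fun i => N i.succ) (fun i => hz _) (fun i => hlog _)
      (fun i => hN _) s hs hsY
    have hins : ∀ b ∈ Ioc (z 0) (z 0 + N 0), b ∉ s → (insert b s).card = m + 1 ∧ ∀ x ∈ insert b s, x ≤ Y := by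
      intro b hb hbs
      refine ⟨by rw [Finset.card_insert_of_notMem hbs, hs], fun x hx => ?_⟩
      rw [Finset.mem_insert] at hx
      rcases hx with rfl | hx
      · rw [Finset.mem_Ioc] at hb
        exact hb.2.trans (hz 0)
      · exact hsY x hx
    have hb : ∀ b ∈ Ioc (z 0) (z 0 + N 0), b ∉ s → _ := fun b hb hbs =>
      h2 Y hY (fun i => z i.succ) (fun i => N i.succ) (fun i => hz _) (fun i => hlog _)
        (fun i => hN _) (insert b s) (hins b hb hbs).1 (hins b hb hbs).2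
    have hav := h3 Y hY (z 0) (N 0) (hz 0) (hlog 0) (hN 0) s hs hsY
    have hav' : ∀ A : ℝ, 0 ≤ A → ∑ b ∈ (Ioc (z 0) (z 0 + N 0)).filter (fun b => b ∉ s), A * wt p (insert b s) ≤
        A * (C3 * N 0 * wt p s) := by
      intro A hA
      rw [← Finset.mul_sum]
      exact mul_le_mul_of_nonneg_left hav hA
    refine ⟨?_, fun κ hκ hκN => ?_, ?_⟩
    · rw [sum_box_succ, hQN]
      refine (step_sum _ s _ (fun b => C2 * Q * Y * wt p (insert b s)) (2 * N 0 * (C1 * Q * Y * wt p s))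
        (by positivity) ?_ ?_).trans ?_
      · intro b hb' _
        rw [Finset.mem_Ioc] at hb'
        calc ∑ β ∈ box (fun i => z i.succ) (fun i => N i.succ), FF Y s (Fin.cons b β : Fin (q + 1) → ℕ) ≤
              ∑ β ∈ box (fun i => z i.succ) (fun i => N i.succ), 2 * Real.log Y * FF Y s β :=
              Finset.sum_le_sum fun β _ => FF_cons_le Y hY s b (hb'.2.trans (hz 0)) β
          _ = 2 * Real.log Y * ∑ β ∈ box (fun i => z i.succ) (fun i => N i.succ), FF Y s β := by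
              rw [Finset.mul_sum]
          _ ≤ 2 * N 0 * (C1 * Q * Y * wt p s) :=
              mul_le_mul (by linarith [hlog 0]) a1 (Finset.sum_nonneg fun _ _ => FF_nonneg _ _ _) (by positivity)
      · intro b hb' hbs
        rw [Finset.sum_congr rfl fun β _ => FF_cons_not_mem Y s b hbs β]
        exact (hb b hb' hbs).1
      · rw [hs]
        have := hav' (C2 * Q * Y) (by positivity)
        refine (add_le_add le_rfl this).trans (le_of_eq ?_)
        ring
    · rw [sum_box_succ, hQN]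
      refine (step_sum _ s _ (fun b => C2 * κ * Q * Y * wt p (insert b s)) (2 * (κ * N 0) * (C1 * Q * Y * wt p s))
        (by positivity) ?_ ?_).trans ?_
      · intro b hb' hbs
        rw [Finset.mem_Ioc] at hb'
        calc ∑ β ∈ box (fun i => z i.succ) (fun i => N i.succ),
              (if Gd s (Fin.cons b β : Fin (q + 1) → ℕ) then 0 else FF Y s (Fin.cons b β : Fin (q + 1) → ℕ)) ≤
              ∑ β ∈ box (fun i => z i.succ) (fun i => N i.succ), 2 * Real.log Y * FF Y s β := by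
              refine Finset.sum_le_sum fun β _ => ?_
              rw [if_neg (fun hG => ((Gd_cons s b β).1 hG).1 hbs)]
              exact FF_cons_le Y hY s b (hb'.2.trans (hz 0)) β
          _ = 2 * Real.log Y * ∑ β ∈ box (fun i => z i.succ) (fun i => N i.succ), FF Y s β := by
              rw [Finset.mul_sum]
          _ ≤ 2 * (κ * N 0) * (C1 * Q * Y * wt p s) :=
              mul_le_mul (by linarith [hκN 0]) a1 (Finset.sum_nonneg fun _ _ => FF_nonneg _ _ _) (by positivity)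
      · intro b hb' hbs
        have e : ∀ β : Fin q → ℕ, (if Gd s (Fin.cons b β : Fin (q + 1) → ℕ) then 0 else
            FF Y s (Fin.cons b β : Fin (q + 1) → ℕ)) = if Gd (insert b s) β then 0 else FF Y (insert b s) β := by
          intro β
          rw [FF_cons_not_mem Y s b hbs β]
          by_cases hG : Gd (insert b s) β
          · rw [if_pos hG, if_pos ((Gd_cons s b β).2 ⟨hbs, hG⟩)]
          · rw [if_neg hG, if_neg (fun h => hG ((Gd_cons s b β).1 h).2)]
        rw [Finset.sum_congr rfl fun β _ => e β]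
        exact (hb b hb' hbs).2.1 κ hκ (fun i => hκN _)
      · rw [hs]
        have := hav' (C2 * κ * Q * Y) (by positivity)
        refine (add_le_add le_rfl this).trans (le_of_eq ?_)
        ring
    · rw [sum_box_succ, hQN]
      refine (step_sum _ s _ (fun b => C2 * Q * Y ^ 2 * wt p (insert b s)) 0 le_rfl ?_ ?_).trans ?_
      · intro b hb' hbs
        refine le_of_eq (Finset.sum_eq_zero fun β _ => ?_)
        rw [if_neg (fun hG => ((Gd_cons s b β).1 hG).1 hbs)]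
      · intro b hb' hbs
        have e : ∀ β : Fin q → ℕ, (if Gd s (Fin.cons b β : Fin (q + 1) → ℕ) then
            FF Y s (Fin.cons b β : Fin (q + 1) → ℕ) ^ 2 else 0) =
              if Gd (insert b s) β then FF Y (insert b s) β ^ 2 else 0 := by
          intro β
          rw [FF_cons_not_mem Y s b hbs β]
          by_cases hG : Gd (insert b s) β
          · rw [if_pos hG, if_pos ((Gd_cons s b β).2 ⟨hbs, hG⟩)]
          · rw [if_neg hG, if_neg (fun h => hG ((Gd_cons s b β).1 h).2)]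
        rw [Finset.sum_congr rfl fun β _ => e β]
        exact (hb b hb' hbs).2.2
      · rw [mul_zero, zero_add]
        have := hav' (C2 * Q * Y ^ 2) (by positivity)
        refine this.trans ?_
        have e : C2 * Q * Y ^ 2 * (C3 * N 0 * wt p s) = C2 * C3 * (N 0 * Q) * Y ^ 2 * wt p s := by ring
        rw [e]
        have h5 : 0 ≤ (N 0 * Q) * Y ^ 2 * wt p s := by positivity
        have h6 : 0 ≤ 2 * (m : ℝ) * C1 := by positivity
        nlinarith

end Pool.Agent.Helper83.HLD
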