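import Pool.Agent.Helper83.HLD.Final

/-!
# HLD-7: the Matomäki-Radziwiłł theorem at prime tuples
-/

set_option autoImplicit false

namespace Pool.Agent.Helper83.HLD

open Finset ComplexConjugate Pool.Agent.Helper83.HLC

theorem box_mono {q : ℕ} (z N N' : Fin q → ℕ) (h : ∀ j, N j ≤ N' j) : box z N ⊆ box z N' := by
  intro β hβ
  rw [mem_box] at hβ ⊢
  intro j
  have h1 := hβ j
  have h2 := h j
  omega

/-- The moments for intervals of length at least `c log X`. -/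
theorem mom_c {k : ℕ} (r : ℕ) (a : Fin k → ℕ) (ha : Function.Injective a) (c : ℝ) (hc : 0 < c) :
    ∃ M : ℝ, 0 < M ∧ ∀ X : ℕ, 5 + ∑ i, a i ≤ X → ∀ z N : Fin r → ℕ, (∀ j, z j ≤ X) → (∀ j, N j ≤ X) →
      (∀ j, c * Real.log X ≤ N j) →
      (∑ β ∈ box z N, ∑ n ∈ Icc 1 X, GG a n * GG β n ≤ M * (∏ j, (N j : ℝ)) * X) ∧
      (∑ n ∈ Icc 1 X, GG a n * (∑ β ∈ box z N, GG β n) ^ 2 ≤ M * (∏ j, (N j : ℝ)) ^ 2 * X) := by
  obtain ⟨B, hB, hmom⟩ := mom12 r a ha
  set R : ℝ := (1 + 3 / c) ^ r with hR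
  have hR0 : 0 < R := by positivity
  refine ⟨B * R * 5 + B * R ^ 2 * 5, by positivity, fun X hX z N hz hN hcN => ?_⟩
  have hXR : (5 : ℝ) ≤ X := by exact_mod_cast (by omega : 5 ≤ X)
  have hLg : 1 ≤ Real.log X := by
    rw [Real.le_log_iff_exp_le (by linarith)]
    exact (Real.exp_one_lt_d9.le.trans (by norm_num)).trans hXR
  set t : ℕ := ⌈2 * Real.log X⌉₊ with ht
  have ht1 : 2 * Real.log X ≤ t := Nat.le_ceil _
  have ht2 : (t : ℝ) ≤ 2 * Real.log X + 1 := (Nat.ceil_lt_add_one (by linarith)).le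
  have htX : t ≤ 2 * X := by
    have e1 : Real.log X ≤ X - 1 := Real.log_le_sub_one_of_pos (by linarith)
    have : (t : ℝ) ≤ 2 * X := by linarith
    exact_mod_cast this
  have ht0 : 1 ≤ t := by
    have : (1 : ℝ) ≤ t := by linarith
    exact_mod_cast this
  set N' : Fin r → ℕ := fun j => N j + t with hN'
  set Y : ℕ := 4 * X + ∑ i, a i with hY
  have hY5 : (Y : ℝ) ≤ 5 * X := by exact_mod_cast (by omega : Y ≤ 5 * X)
  have hY0 : (0 : ℝ) < Y := by exact_mod_cast (by omega : 0 < Y)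
  have hlogY : Real.log Y ≤ 2 * Real.log X := by
    have e : (Y : ℝ) ≤ (X : ℝ) ^ 2 := by nlinarith
    have e2 := Real.log_le_log hY0 e
    rw [Real.log_pow] at e2
    exact_mod_cast e2
  obtain ⟨m1, m2⟩ := hmom Y X (by omega) (by omega) (by omega) z N'
    (fun j => by
      have h1 := hz j
      have h2 := hN j
      have h3 : N' j = N j + t := rfl
      omega)
    (fun j => by
      have h3 : N' j = N j + t := rfl
      omega)
    (fun j => by
      have h3 : ((N' j : ℕ) : ℝ) = N j + t := by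
        rw [hN']
        push_cast
        ring
      rw [h3]
      have : (0 : ℝ) ≤ N j := Nat.cast_nonneg _
      linarith)
  set Q : ℝ := ∏ j, (N j : ℝ) with hQ
  have hQ0 : 0 ≤ Q := Finset.prod_nonneg fun _ _ => Nat.cast_nonneg _
  set Q' : ℝ := ∏ j, (N' j : ℝ) with hQ'
  have hQ'0 : 0 ≤ Q' := Finset.prod_nonneg fun _ _ => Nat.cast_nonneg _
  have hQQ : Q' ≤ R * Q := by
    calc Q' ≤ ∏ j : Fin r, (1 + 3 / c) * (N j : ℝ) := by
          refine Finset.prod_le_prod (fun _ _ => Nat.cast_nonneg _) fun j _ => ?_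
          have h3 : ((N' j : ℕ) : ℝ) = N j + t := by
            rw [hN']
            push_cast
            ring
          rw [h3, add_mul, one_mul]
          have e1 : Real.log X ≤ N j / c := by
            rw [le_div_iff₀ hc]
            have := hcN j
            linarith
          have e2 : 3 / c * (N j : ℝ) = 3 * (N j / c) := by ring
          rw [e2]
          linarith
      _ = R * Q := by
          rw [Finset.prod_mul_distrib, Finset.prod_const, Finset.card_univ, Fintype.card_fin]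
  have hsub : box z N ⊆ box z N' := box_mono z N N' fun j => Nat.le_add_right _ _
  constructor
  · calc ∑ β ∈ box z N, ∑ n ∈ Icc 1 X, GG a n * GG β n ≤ ∑ β ∈ box z N', ∑ n ∈ Icc 1 X, GG a n * GG β n :=
          Finset.sum_le_sum_of_subset_of_nonneg hsub fun β _ _ =>
            Finset.sum_nonneg fun n _ => mul_nonneg (GG_nonneg _ _) (GG_nonneg _ _)
      _ ≤ B * Q' * Y := m1
      _ ≤ B * (R * Q) * (5 * X) := by gcongr
      _ ≤ (B * R * 5 + B * R ^ 2 * 5) * Q * X := by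
          have : 0 ≤ B * R ^ 2 * 5 * Q * X := by positivity
          nlinarith
  · calc ∑ n ∈ Icc 1 X, GG a n * (∑ β ∈ box z N, GG β n) ^ 2 ≤
          ∑ n ∈ Icc 1 X, GG a n * (∑ β ∈ box z N', GG β n) ^ 2 := by
          refine Finset.sum_le_sum fun n _ => mul_le_mul_of_nonneg_left ?_ (GG_nonneg _ _)
          refine pow_le_pow_left₀ (Finset.sum_nonneg fun _ _ => GG_nonneg _ _) ?_ 2
          exact Finset.sum_le_sum_of_subset_of_nonneg hsub fun β _ _ => GG_nonneg _ _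
      _ ≤ B * Q' ^ 2 * Y := m2
      _ ≤ B * (R * Q) ^ 2 * (5 * X) := by gcongr
      _ ≤ (B * R * 5 + B * R ^ 2 * 5) * Q ^ 2 * X := by
          have : 0 ≤ B * R * 5 * Q ^ 2 * X := by positivity
          nlinarith

theorem near (hE : MRP.EXPx) (hL : MRP.LAWx) {k : ℕ} (r : ℕ) (a : Fin k → ℕ) (ha : Function.Injective a)
    (ε c : ℝ) (hε : 0 < ε) (hc : 0 < c) :
    ∃ H1 X1 : ℕ, ∀ X : ℕ, X1 ≤ X → ∀ z N : Fin r → ℕ, (∀ j, z j ≤ X) → (∀ j, N j ≤ X) →
      (∀ j, c * Real.log X ≤ N j) → ∀ H : ℕ, H1 ≤ H → c * Real.log X ^ k ≤ H → H ≤ X → ∀ y : ℕ, y ≤ X →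
      ∀ b : ℕ → ℝ, (∀ m, |b m| ≤ 1) → ∀ α : ℝ,
      ∑ β ∈ box z N, ∑ n ∈ Icc 1 X, GG a n * GG β n * ‖TT (fy X b y) H α n‖ ≤ ε * (∏ j, (N j : ℝ)) * H * X := by
  obtain ⟨M, hM, hmom⟩ := mom_c r a ha c hc
  set δ : ℝ := ε ^ 2 / (2 * M) with hδ
  have hδ0 : 0 < δ := by positivity
  obtain ⟨H2, X2, h2⟩ := smooth hE hL a ha δ c hδ0 hc
  refine ⟨H2, max X2 (5 + ∑ i, a i), fun X hX z N hz hN hcN H hH hHc hHX y hy b hb α => ?_⟩
  have hX2 : X2 ≤ X := (le_max_left _ _).trans hX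
  have hX5 : 5 + ∑ i, a i ≤ X := (le_max_right _ _).trans hX
  have hX0 : (0 : ℝ) ≤ X := Nat.cast_nonneg _
  have hH0 : (0 : ℝ) ≤ H := Nat.cast_nonneg _
  obtain ⟨_, m2⟩ := hmom X hX5 z N hz hN hcN
  set Q : ℝ := ∏ j, (N j : ℝ) with hQ
  have hQ0 : 0 ≤ Q := Finset.prod_nonneg fun _ _ => Nat.cast_nonneg _
  have e3 : ∑ β ∈ box z N, ∑ n ∈ Icc 1 X, GG a n * GG β n * ‖TT (fy X b y) H α n‖ =
      ∑ n ∈ Icc 1 X, GG a n * (∑ β ∈ box z N, GG β n) * ‖TT (fy X b y) H α n‖ := by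
    rw [Finset.sum_comm]
    refine Finset.sum_congr rfl fun n _ => ?_
    rw [Finset.mul_sum, Finset.sum_mul]
  rw [e3]
  refine (abs_le_of_sq_le_sq' ?_ (by positivity)).2
  refine (Finset.sum_sq_le_sum_mul_sum_of_sq_le_mul (Icc 1 X)
    (f := fun n => GG a n * (∑ β ∈ box z N, GG β n) ^ 2) (g := fun n => GG a n * ‖TT (fy X b y) H α n‖ ^ 2)
    (fun n _ => mul_nonneg (GG_nonneg _ _) (sq_nonneg _)) (fun n _ => mul_nonneg (GG_nonneg _ _) (sq_nonneg _))
    (fun n _ => le_of_eq (by ring))).trans ?_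
  have e4 : ∑ n ∈ Icc 1 X, GG a n * ‖TT (fy X b y) H α n‖ ^ 2 ≤ 2 * H * (δ * H * X) := by
    refine le_trans ?_ (mul_le_mul_of_nonneg_left (h2 X hX2 H hH hHc hHX y hy b hb α)
      (by positivity : (0 : ℝ) ≤ 2 * H))
    rw [Finset.mul_sum]
    refine Finset.sum_le_sum fun n _ => ?_
    have e5 := norm_TT_le (norm_fy_le X hb y) H α n
    have e6 : ‖TT (fy X b y) H α n‖ ^ 2 ≤ 2 * H * ‖TT (fy X b y) H α n‖ := by
      rw [sq]
      exact mul_le_mul_of_nonneg_right e5 (norm_nonneg _)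
    calc GG a n * ‖TT (fy X b y) H α n‖ ^ 2 ≤ GG a n * (2 * H * ‖TT (fy X b y) H α n‖) :=
          mul_le_mul_of_nonneg_left e6 (GG_nonneg _ _)
      _ = _ := by ring
  refine (mul_le_mul m2 e4 (Finset.sum_nonneg fun n _ => mul_nonneg (GG_nonneg _ _) (sq_nonneg _))
    (by positivity)).trans (le_of_eq ?_)
  have e7 : 2 * M * δ = ε ^ 2 := by rw [hδ]; field_simp
  calc M * Q ^ 2 * X * (2 * H * (δ * H * X)) = (2 * M * δ) * (Q * H * X) ^ 2 := by ring
    _ = (ε * Q * H * X) ^ 2 := by rw [e7]; ring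

theorem near_final (hE : MRP.EXPx) (hL : MRP.LAWx) (k r : ℕ) (a : Fin k → ℕ) (ha : Function.Injective a)
    (c ε : ℝ) (hc : 0 < c) (hε : 0 < ε) :
    ∃ H₀ X₀ : ℕ, ∀ X : ℕ, X₀ ≤ X → ∀ z B : Fin r → ℕ, (∀ j, z j ≤ X) →
      (∀ j, c * Real.log X ≤ B j) → (∀ j, B j ≤ X) →
      ∀ H y : ℕ, H₀ ≤ H → c * Real.log X ^ k ≤ H → H ≤ X → y ≤ X →
      ∀ f : ℕ → ℝ, Centred X f → ∀ α : ℝ,
        ∑ b ∈ Fintype.piFinset (fun j => Ioc (z j) (z j + B j)), ∑ n ∈ Icc 1 X,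
          (∏ i, ArithmeticFunction.vonMangoldt (n + a i)) * (∏ j, ArithmeticFunction.vonMangoldt (n + b j)) *
            ‖∑ h ∈ Ioc y (y + H), (f (n + h) : ℂ) * Complex.exp (2 * Real.pi * Complex.I * (h * α))‖ ≤
          ε * (∏ j, (B j : ℝ)) * H * X := by
  obtain ⟨H1, X1, h1⟩ := near hE hL r a ha (ε / 2) c (by positivity) hc
  obtain ⟨M, hM, hmom⟩ := mom_c r a ha c hc
  obtain ⟨X3, h3⟩ := mx_lam hL (ε / (2 * M)) (by positivity)
  refine ⟨H1, max (max X1 X3) (5 + ∑ i, a i), fun X hX z B hz hcB hBX H y hH hHc hHX hy f hf α => ?_⟩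
  have hX1 : X1 ≤ X := (le_max_left _ _).trans ((le_max_left _ _).trans hX)
  have hX3 : X3 ≤ X := (le_max_right _ _).trans ((le_max_left _ _).trans hX)
  have hX5 : 5 + ∑ i, a i ≤ X := (le_max_right _ _).trans hX
  have hH0 : (0 : ℝ) ≤ H := Nat.cast_nonneg _
  have hX00 : (0 : ℝ) ≤ X := Nat.cast_nonneg _
  set Q : ℝ := ∏ j, (B j : ℝ) with hQ
  have hQ0 : 0 ≤ Q := Finset.prod_nonneg fun _ _ => Nat.cast_nonneg _
  have hm1 := (hmom X hX5 z B hz hBX hcB).1
  -- the sum over `h`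
  have hshift : ∀ F : ℕ → ℂ, ∑ h ∈ Ioc y (y + H), F h = ∑ h ∈ Icc 1 H, F (y + h) := by
    intro F
    rw [show Ioc y (y + H) = (Icc 1 H).image (fun h => y + h) by
      ext x
      rw [Finset.mem_image, Finset.mem_Ioc]
      constructor
      · intro hx
        exact ⟨x - y, by rw [Finset.mem_Icc]; omega, by omega⟩
      · rintro ⟨h, hh, rfl⟩
        rw [Finset.mem_Icc] at hh
        omega]
    rw [Finset.sum_image fun x _ z _ h => by simpa using h]
  have hnorm : ∀ n : ℕ, ‖∑ h ∈ Ioc y (y + H), (f (n + h) : ℂ) * Complex.exp (2 * Real.pi * Complex.I * (h * α))‖ =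
      ‖∑ h ∈ Icc 1 H, (f (n + h + y) : ℂ) * MRP.eC ((h : ℝ) * α)‖ := by
    intro n
    rw [hshift]
    have e1 : ∑ h ∈ Icc 1 H, (f (n + (y + h)) : ℂ) *
        Complex.exp (2 * Real.pi * Complex.I * (((y + h : ℕ) : ℂ) * α)) =
        MRP.eC ((y : ℝ) * α) * ∑ h ∈ Icc 1 H, (f (n + h + y) : ℂ) * MRP.eC ((h : ℝ) * α) := by
      rw [Finset.mul_sum]
      refine Finset.sum_congr rfl fun h _ => ?_
      have e2 : Complex.exp (2 * Real.pi * Complex.I * (((y + h : ℕ) : ℂ) * α)) =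
          MRP.eC ((y : ℝ) * α) * MRP.eC ((h : ℝ) * α) := by
        rw [← eC_add]
        unfold MRP.eC
        congr 1
        push_cast
        ring
      have e3 : n + (y + h) = n + h + y := by omega
      rw [e2, e3]
      ring
    rw [e1, norm_mul, norm_eC, one_mul]
  simp only [hnorm]
  have hGn : ∀ {q : ℕ} (β : Fin q → ℕ) (n : ℕ), ∏ i, ArithmeticFunction.vonMangoldt (n + β i) = GG β n :=
    fun β n => rfl
  simp only [hGn]
  change ∑ β ∈ box z B, _ ≤ _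
  rcases hf with hf | ⟨b, hb, hf⟩
  · have e1 : ∀ n : ℕ, ‖∑ h ∈ Icc 1 H, (f (n + h + y) : ℂ) * MRP.eC ((h : ℝ) * α)‖ ≤
        ‖TT (fy X (fun m => (-1) ^ m) y) H α n‖ + (ε / (2 * M)) * H := by
      intro n
      have e2 : ∑ h ∈ Icc 1 H, (f (n + h + y) : ℂ) * MRP.eC ((h : ℝ) * α) =
          TT (fy X (fun m => (-1) ^ m) y) H α n +
            ∑ h ∈ Icc 1 H, ((MRP.mx X (fun m => (-1) ^ m) : ℝ) : ℂ) * MRP.eC ((h : ℝ) * α) := by
        unfold TT
        rw [← Finset.sum_add_distrib]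
        refine Finset.sum_congr rfl fun h _ => ?_
        rw [hf, ← add_mul]
        congr 1
        unfold fy fb MRP.Om
        push_cast
        ring
      rw [e2]
      refine (norm_add_le _ _).trans (add_le_add le_rfl ?_)
      refine (norm_sum_le _ _).trans ?_
      calc ∑ h ∈ Icc 1 H, ‖((MRP.mx X (fun m => (-1) ^ m) : ℝ) : ℂ) * MRP.eC ((h : ℝ) * α)‖ ≤
            ∑ _h ∈ Icc 1 H, (ε / (2 * M)) := by
            refine Finset.sum_le_sum fun h _ => ?_
            rw [norm_mul, norm_eC, mul_one, Complex.norm_real, Real.norm_eq_abs]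
            exact h3 X hX3
        _ = (ε / (2 * M)) * H := by
            rw [Finset.sum_const, Nat.card_Icc, Nat.add_sub_cancel, nsmul_eq_mul, mul_comm]
    have e4 := h1 X hX1 z B hz hBX hcB H hH hHc hHX y hy (fun m => (-1) ^ m) (fun m => by simp) α
    calc ∑ β ∈ box z B, ∑ n ∈ Icc 1 X, GG a n * GG β n *
          ‖∑ h ∈ Icc 1 H, (f (n + h + y) : ℂ) * MRP.eC ((h : ℝ) * α)‖ ≤
          ∑ β ∈ box z B, ∑ n ∈ Icc 1 X, (GG a n * GG β n * ‖TT (fy X (fun m => (-1) ^ m) y) H α n‖ +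
            GG a n * GG β n * ((ε / (2 * M)) * H)) := by
          refine Finset.sum_le_sum fun β _ => Finset.sum_le_sum fun n _ => ?_
          rw [← mul_add]
          exact mul_le_mul_of_nonneg_left (e1 n) (mul_nonneg (GG_nonneg _ _) (GG_nonneg _ _))
      _ = ∑ β ∈ box z B, ∑ n ∈ Icc 1 X, GG a n * GG β n * ‖TT (fy X (fun m => (-1) ^ m) y) H α n‖ +
            (∑ β ∈ box z B, ∑ n ∈ Icc 1 X, GG a n * GG β n) * ((ε / (2 * M)) * H) := by
          simp only [Finset.sum_add_distrib, ← Finset.sum_mul]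
      _ ≤ ε / 2 * Q * H * X + (M * Q * X) * ((ε / (2 * M)) * H) := by
          refine add_le_add e4 (mul_le_mul_of_nonneg_right hm1 (by positivity))
      _ = ε * Q * H * X := by field_simp; ring
  · have e1 : ∀ n : ℕ, ‖∑ h ∈ Icc 1 H, (f (n + h + y) : ℂ) * MRP.eC ((h : ℝ) * α)‖ =
        ‖TT (fy X b y) H α n‖ := by
      intro n
      congr 1
      unfold TT
      refine Finset.sum_congr rfl fun h _ => ?_
      rw [hf]
      rfl
    simp only [e1]
    have e4 := h1 X hX1 z B hz hBX hcB H hH hHc hHX y hy b hb α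
    refine e4.trans ?_
    have : 0 ≤ ε / 2 * Q * H * X := by positivity
    linarith

end Pool.Agent.Helper83.HLD
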