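import Pool.Agent.Helper83.HLC.Avg

/-!
# HLD-4: Parseval and Cauchy-Schwarz for families
-/

set_option autoImplicit false

namespace Pool.Agent.Helper83.HLD

open Finset ComplexConjugate Pool.Agent.Helper83.HLC

/-- The correlation of `c` and `c'` on `[1, H]`. -/
noncomputable def rho2 (c c' : ℕ → ℂ) (H : ℕ) (t : ℤ) : ℂ :=
  ∑ x ∈ (Icc 1 H ×ˢ Icc 1 H).filter (fun x => (x.1 : ℤ) - x.2 = t), c x.1 * conj (c' x.2)

theorem sum_centred (H : ℕ) (g : ℤ → ℂ) :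
    ∑ b : ZMod (2 * H + 1), g b.valMinAbs = ∑ t ∈ Icc (-(H : ℤ)) H, g t := by
  refine Finset.sum_nbij' (fun b => b.valMinAbs) (fun t => (t : ZMod (2 * H + 1))) ?_ ?_ ?_ ?_ ?_
  · intro b _
    have h := ZMod.valMinAbs_mem_Ioc b
    rw [Set.mem_Ioc] at h
    push_cast at h
    rw [Finset.mem_Icc]
    constructor <;> omega
  · intro t _
    exact Finset.mem_univ _
  · intro b _
    exact ZMod.coe_valMinAbs b
  · intro t ht
    rw [Finset.mem_Icc] at ht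
    rw [ZMod.valMinAbs_spec]
    refine ⟨rfl, ?_⟩
    rw [Set.mem_Ioc]
    push_cast
    constructor <;> omega
  · intro b _
    rfl

theorem sum_centred_real (H : ℕ) (g : ℤ → ℝ) :
    ∑ b : ZMod (2 * H + 1), g b.valMinAbs = ∑ t ∈ Icc (-(H : ℤ)) H, g t := by
  have h := sum_centred H (fun t => (g t : ℂ))
  exact_mod_cast h

theorem sum_rho2_mul (c c' : ℕ → ℂ) (H : ℕ) (g : ℤ → ℂ) :
    ∑ t ∈ Icc (-(H : ℤ)) H, rho2 c c' H t * g t =
      ∑ x ∈ Icc 1 H ×ˢ Icc 1 H, c x.1 * conj (c' x.2) * g ((x.1 : ℤ) - x.2) := by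
  have hmaps : ∀ x ∈ Icc 1 H ×ˢ Icc 1 H, ((x.1 : ℤ) - x.2) ∈ Icc (-(H : ℤ)) H := by
    intro x hx
    rw [Finset.mem_product, Finset.mem_Icc, Finset.mem_Icc] at hx
    rw [Finset.mem_Icc]
    constructor <;> omega
  rw [← Finset.sum_fiberwise_of_maps_to hmaps]
  refine Finset.sum_congr rfl fun t _ => ?_
  unfold rho2
  rw [Finset.sum_mul]
  refine Finset.sum_congr rfl fun x hx => ?_
  rw [Finset.mem_filter] at hx
  rw [hx.2]

/-- the exponential sum at `k` -/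
noncomputable def ff (c : ℕ → ℂ) (H : ℕ) (k : ZMod (2 * H + 1)) : ℂ :=
  ∑ h ∈ Icc 1 H, c h * ZMod.stdAddChar (k * (h : ZMod (2 * H + 1)))

theorem sum_sq_ff (c : ℕ → ℂ) (H : ℕ) :
    ∑ k : ZMod (2 * H + 1), ‖ff c H k‖ ^ 2 = (2 * H + 1 : ℕ) * ∑ h ∈ Icc 1 H, ‖c h‖ ^ 2 := by
  classical
  have hinj : Set.InjOn (fun h : ℕ => (h : ZMod (2 * H + 1))) (Icc 1 H : Finset ℕ) := by
    intro a ha b hb hab
    rw [Finset.mem_coe, Finset.mem_Icc] at ha hb
    have h1 := (ZMod.natCast_eq_natCast_iff' a b (2 * H + 1)).1 hab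
    rw [Nat.mod_eq_of_lt (by omega), Nat.mod_eq_of_lt (by omega)] at h1
    exact h1
  set y : ZMod (2 * H + 1) → ℂ := fun b => if b.val ∈ Icc 1 H then c b.val else 0 with hy
  have hyc : ∀ h ∈ Icc 1 H, y (h : ZMod (2 * H + 1)) = c h := by
    intro h hh
    have hv : ((h : ZMod (2 * H + 1))).val = h := by
      rw [ZMod.val_natCast, Nat.mod_eq_of_lt]
      rw [Finset.mem_Icc] at hh
      omega
    simp only [hy, hv, if_pos hh]
  have hsup : ∀ b : ZMod (2 * H + 1), b ∉ (Icc 1 H).image (fun h : ℕ => (h : ZMod (2 * H + 1))) →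
      y b = 0 := by
    intro b hb
    simp only [hy]
    rw [if_neg]
    intro hv
    exact hb (Finset.mem_image.2 ⟨b.val, hv, ZMod.natCast_zmod_val b⟩)
  have hsum : ∀ k : ZMod (2 * H + 1), ∑ b : ZMod (2 * H + 1), y b * ZMod.stdAddChar (k * b) =
      ff c H k := by
    intro k
    rw [← Finset.sum_subset (Finset.subset_univ
      ((Icc 1 H).image (fun h : ℕ => (h : ZMod (2 * H + 1)))))
      (fun b _ hb => by rw [hsup b hb, zero_mul])]
    rw [Finset.sum_image hinj]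
    unfold ff
    refine Finset.sum_congr rfl fun h hh => ?_
    rw [hyc h hh]
  have hsq : ∑ b : ZMod (2 * H + 1), ‖y b‖ ^ 2 = ∑ h ∈ Icc 1 H, ‖c h‖ ^ 2 := by
    rw [← Finset.sum_subset (Finset.subset_univ
      ((Icc 1 H).image (fun h : ℕ => (h : ZMod (2 * H + 1)))))
      (fun b _ hb => by rw [hsup b hb]; simp)]
    rw [Finset.sum_image hinj]
    refine Finset.sum_congr rfl fun h hh => ?_
    rw [hyc h hh]
  have hp := Pool.Agent.Helper6.ER.add_parseval (2 * H + 1) y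
  simp only [hsum] at hp
  rw [hp, hsq]

theorem ff_eq (c : ℕ → ℂ) (H : ℕ) (k : ZMod (2 * H + 1)) :
    ff c H k = ∑ h ∈ Icc 1 H, c h * MRP.eC ((h : ℝ) * ((k.val : ℝ) / ((2 * H + 1 : ℕ) : ℝ))) := by
  unfold ff
  refine Finset.sum_congr rfl fun h _ => ?_
  congr 1
  have hk : k * (h : ZMod (2 * H + 1)) = (((k.val : ℤ) * (h : ℤ) : ℤ) : ZMod (2 * H + 1)) := by
    push_cast
    rw [ZMod.natCast_zmod_val]
  rw [hk, ZMod.stdAddChar_coe]
  unfold MRP.eC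
  congr 1
  push_cast
  ring

theorem parseval_rho2 (c c' : ℕ → ℂ) (H : ℕ) :
    ((2 * H + 1 : ℕ) : ℝ) * ∑ t ∈ Icc (-(H : ℤ)) H, ‖rho2 c c' H t‖ ^ 2 =
      ∑ k : ZMod (2 * H + 1), ‖ff c H k‖ ^ 2 * ‖ff c' H k‖ ^ 2 := by
  have hmain : ∀ k : ZMod (2 * H + 1),
      ∑ b : ZMod (2 * H + 1), rho2 c c' H b.valMinAbs * ZMod.stdAddChar (k * b) =
        ff c H k * conj (ff c' H k) := by
    intro k
    have h1 : ∑ b : ZMod (2 * H + 1), rho2 c c' H b.valMinAbs * ZMod.stdAddChar (k * b) =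
        ∑ b : ZMod (2 * H + 1), (fun t : ℤ => rho2 c c' H t *
          ZMod.stdAddChar (k * ((t : ℤ) : ZMod (2 * H + 1)))) b.valMinAbs := by
      refine Finset.sum_congr rfl fun b _ => ?_
      simp only [ZMod.coe_valMinAbs]
    rw [h1, sum_centred H (fun t : ℤ => rho2 c c' H t *
          ZMod.stdAddChar (k * ((t : ℤ) : ZMod (2 * H + 1)))),
      sum_rho2_mul c c' H (fun t : ℤ => ZMod.stdAddChar (k * ((t : ℤ) : ZMod (2 * H + 1))))]
    unfold ff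
    rw [map_sum, Finset.sum_mul_sum, Finset.sum_product]
    refine Finset.sum_congr rfl fun a _ => Finset.sum_congr rfl fun b _ => ?_
    rw [RingHom.map_mul, ← AddChar.map_neg_eq_conj]
    have h2 : k * ((((a : ℤ) - (b : ℤ) : ℤ)) : ZMod (2 * H + 1)) =
        k * (a : ZMod (2 * H + 1)) + -(k * (b : ZMod (2 * H + 1))) := by
      push_cast
      ring
    rw [h2, AddChar.map_add_eq_mul]
    ring
  have hp := Pool.Agent.Helper6.ER.add_parseval (2 * H + 1)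
    (fun b : ZMod (2 * H + 1) => rho2 c c' H b.valMinAbs)
  simp only [hmain] at hp
  have hc := sum_centred_real H (fun t => ‖rho2 c c' H t‖ ^ 2)
  rw [hc] at hp
  rw [← hp]
  refine Finset.sum_congr rfl fun k _ => ?_
  rw [norm_mul, RCLike.norm_conj, mul_pow]

/-- Parseval for a family. -/
theorem sum_rho2_sq {ι : Type*} (P : Finset ι) (c : ι → ℕ → ℂ) (H : ℕ) (F : ℝ)
    (hF : ∀ α : ℝ, ∑ b ∈ P, ‖∑ h ∈ Icc 1 H, c b h * MRP.eC ((h : ℝ) * α)‖ ^ 2 ≤ F) :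
    ∑ x ∈ P ×ˢ P, ∑ t ∈ Icc (-(H : ℤ)) H, ‖rho2 (c x.1) (c x.2) H t‖ ^ 2 ≤
      F * ∑ b ∈ P, ∑ h ∈ Icc 1 H, ‖c b h‖ ^ 2 := by
  have hN : (0 : ℝ) < ((2 * H + 1 : ℕ) : ℝ) := by positivity
  have hFF : ∀ k : ZMod (2 * H + 1), ∑ b ∈ P, ‖ff (c b) H k‖ ^ 2 ≤ F := by
    intro k
    have h1 := hF ((k.val : ℝ) / ((2 * H + 1 : ℕ) : ℝ))
    refine le_trans (le_of_eq ?_) h1
    refine Finset.sum_congr rfl fun b _ => ?_
    rw [ff_eq]
  refine le_of_mul_le_mul_left ?_ hN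
  calc ((2 * H + 1 : ℕ) : ℝ) * ∑ x ∈ P ×ˢ P, ∑ t ∈ Icc (-(H : ℤ)) H, ‖rho2 (c x.1) (c x.2) H t‖ ^ 2 =
        ∑ x ∈ P ×ˢ P, ∑ k : ZMod (2 * H + 1), ‖ff (c x.1) H k‖ ^ 2 * ‖ff (c x.2) H k‖ ^ 2 := by
        rw [Finset.mul_sum]
        refine Finset.sum_congr rfl fun x _ => ?_
        exact parseval_rho2 _ _ _
    _ = ∑ k : ZMod (2 * H + 1), (∑ b ∈ P, ‖ff (c b) H k‖ ^ 2) * ∑ b ∈ P, ‖ff (c b) H k‖ ^ 2 := by
        rw [Finset.sum_comm]
        refine Finset.sum_congr rfl fun k _ => ?_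
        rw [Finset.sum_mul_sum, ← Finset.sum_product']
    _ ≤ ∑ k : ZMod (2 * H + 1), F * ∑ b ∈ P, ‖ff (c b) H k‖ ^ 2 := by
        refine Finset.sum_le_sum fun k _ => ?_
        exact mul_le_mul_of_nonneg_right (hFF k) (Finset.sum_nonneg fun _ _ => sq_nonneg _)
    _ = F * ∑ b ∈ P, ∑ k : ZMod (2 * H + 1), ‖ff (c b) H k‖ ^ 2 := by
        rw [← Finset.mul_sum, Finset.sum_comm]
    _ = ((2 * H + 1 : ℕ) : ℝ) * (F * ∑ b ∈ P, ∑ h ∈ Icc 1 H, ‖c b h‖ ^ 2) := by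
        rw [Finset.sum_congr rfl fun b _ => sum_sq_ff (c b) H, ← Finset.mul_sum]
        ring

theorem norm_rho2_le (c c' : ℕ → ℂ) (hc : ∀ n, ‖c n‖ ≤ 1) (hc' : ∀ n, ‖c' n‖ ≤ 1) (H : ℕ) (t : ℤ) :
    ‖rho2 c c' H t‖ ≤ H := by
  unfold rho2
  refine (norm_sum_le _ _).trans ?_
  have h1 : ∀ x ∈ (Icc 1 H ×ˢ Icc 1 H).filter (fun x => (x.1 : ℤ) - x.2 = t), ‖c x.1 * conj (c' x.2)‖ ≤ 1 := by
    intro x _
    rw [norm_mul, RCLike.norm_conj]
    exact mul_le_one₀ (hc _) (norm_nonneg _) (hc' _)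
  refine (Finset.sum_le_sum h1).trans ?_
  rw [Finset.sum_const, nsmul_eq_mul, mul_one]
  have h2 : ((Icc 1 H ×ˢ Icc 1 H).filter (fun x => (x.1 : ℤ) - x.2 = t)).card ≤ (Icc 1 H).card := by
    refine Finset.card_le_card_of_injOn (fun x => x.1) ?_ ?_
    · intro x hx
      rw [Finset.mem_coe, Finset.mem_filter, Finset.mem_product] at hx
      exact hx.1.1
    · intro x hx y hy hxy
      rw [Finset.mem_coe, Finset.mem_filter] at hx hy
      simp only at hxy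
      have h3 := hx.2
      have h4 := hy.2
      ext
      · exact hxy
      · omega
  rw [Nat.card_Icc] at h2
  have h3 : ((Icc 1 H ×ˢ Icc 1 H).filter (fun x => (x.1 : ℤ) - x.2 = t)).card ≤ H := by omega
  exact_mod_cast h3

theorem norm_rho2_neg (c c' : ℕ → ℂ) (H : ℕ) (t : ℤ) : ‖rho2 c c' H (-t)‖ = ‖rho2 c' c H t‖ := by
  have h1 : rho2 c c' H (-t) = conj (rho2 c' c H t) := by
    unfold rho2
    rw [map_sum]
    refine Finset.sum_nbij' Prod.swap Prod.swap ?_ ?_ ?_ ?_ ?_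
    · intro x hx
      rw [Finset.mem_filter, Finset.mem_product] at hx
      rw [Finset.mem_filter, Finset.mem_product]
      exact ⟨⟨hx.1.2, hx.1.1⟩, by simp only [Prod.fst_swap, Prod.snd_swap]; omega⟩
    · intro x hx
      rw [Finset.mem_filter, Finset.mem_product] at hx
      rw [Finset.mem_filter, Finset.mem_product]
      exact ⟨⟨hx.1.2, hx.1.1⟩, by simp only [Prod.fst_swap, Prod.snd_swap]; omega⟩
    · intro x _
      exact Prod.swap_swap x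
    · intro x _
      exact Prod.swap_swap x
    · intro x _
      rw [map_mul, Complex.conj_conj, mul_comm, Prod.fst_swap, Prod.snd_swap]
  rw [h1, RCLike.norm_conj]

theorem sum_neg_pos (H : ℕ) (F : ℤ → ℝ) (hF : ∀ t, 0 ≤ F t) :
    ∑ t ∈ Icc (-(H : ℤ)) H, F t ≤ ∑ t ∈ range (H + 1), (F t + F (-(t : ℤ))) := by
  rw [Finset.sum_add_distrib]
  rw [← Finset.sum_filter_add_sum_filter_not (Icc (-(H : ℤ)) H) (fun t => 0 ≤ t)]
  refine add_le_add ?_ ?_
  · have h1 : ∑ t ∈ (range (H + 1)).image (fun n : ℕ => (n : ℤ)), F t = ∑ t ∈ range (H + 1), F t :=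
      Finset.sum_image fun x _ y _ h => by exact_mod_cast h
    rw [← h1]
    refine Finset.sum_le_sum_of_subset_of_nonneg ?_ fun _ _ _ => hF _
    intro t ht
    rw [Finset.mem_filter, Finset.mem_Icc] at ht
    rw [Finset.mem_image]
    exact ⟨t.toNat, by rw [Finset.mem_range]; omega, by omega⟩
  · have h1 : ∑ t ∈ (range (H + 1)).image (fun n : ℕ => -(n : ℤ)), F t = ∑ t ∈ range (H + 1), F (-(t : ℤ)) :=
      Finset.sum_image fun x _ y _ h => by simpa using h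
    rw [← h1]
    refine Finset.sum_le_sum_of_subset_of_nonneg ?_ fun _ _ _ => hF _
    intro t ht
    rw [Finset.mem_filter, Finset.mem_Icc] at ht
    rw [Finset.mem_image]
    exact ⟨(-t).toNat, by rw [Finset.mem_range]; omega, by omega⟩

/-- The correlation as a function of the difference. -/
noncomputable def qq2 (u u' : ℕ → ℂ) (X : ℕ) (t : ℤ) : ℂ :=
  ∑ n ∈ Icc 1 X, tr u X (n + (-t).toNat) * conj (tr u' X (n + t.toNat))

theorem corr_eq2 (u u' : ℕ → ℂ) (X s s' : ℕ) (hs : s ≤ X) (hs' : s' ≤ X) :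
    ∑ m ∈ Icc 1 (2 * X), tr u X (m - s) * conj (tr u' X (m - s')) = qq2 u u' X ((s : ℤ) - s') := by
  unfold qq2
  rcases le_total s s' with h | h
  · have h1 := sum_tr u' (fun m x => tr u X (m - s) * conj x) (fun m => by rw [map_zero, mul_zero]) hs'
    rw [h1]
    refine Finset.sum_congr rfl fun n hn => ?_
    have e1 : ((s : ℤ) - s').toNat = 0 := by omega
    have e2 : (-((s : ℤ) - s')).toNat = s' - s := by omega
    have e3 : n + s' - s = n + (s' - s) := by omega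
    rw [e1, e2, e3, add_zero, tr_self u' hn]
  · have h1 := sum_tr u (fun m x => x * conj (tr u' X (m - s'))) (fun m => by rw [zero_mul]) hs
    rw [h1]
    refine Finset.sum_congr rfl fun n hn => ?_
    have e1 : (-((s : ℤ) - s')).toNat = 0 := by omega
    have e2 : ((s : ℤ) - s').toNat = s - s' := by omega
    have e3 : n + s - s' = n + (s - s') := by omega
    rw [e1, e2, e3, add_zero, tr_self u hn]

theorem norm_tr_le2 (G : ℕ → ℝ) (hG : ∀ n, 0 ≤ G n) (u : ℕ → ℂ) (hu : ∀ n, ‖u n‖ ≤ G n) (X n : ℕ) :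
    ‖tr u X n‖ ≤ G n := by
  unfold tr
  split_ifs
  · exact hu n
  · rw [norm_zero]
    exact hG n

/-- Cauchy-Schwarz over `m = n + h` for a family. -/
theorem cs_vec {ι : Type*} (P : Finset ι) (G : ι → ℕ → ℝ) (hG : ∀ b n, 0 ≤ G b n) (u : ι → ℕ → ℂ)
    (hu : ∀ b n, ‖u b n‖ ≤ G b n) (X H : ℕ) (hHX : H ≤ X) (f : ℕ → ℂ) (c : ι → ℕ → ℂ) (hf : ∀ n, ‖f n‖ ≤ 2) :
    ‖∑ b ∈ P, ∑ h ∈ Icc 1 H, c b h * ∑ n ∈ Icc 1 X, u b n * f (n + h)‖ ^ 2 ≤
      16 * X * ∑ t ∈ range (H + 1), ∑ x ∈ P ×ˢ P,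
        ‖rho2 (c x.1) (c x.2) H t‖ * ∑ n ∈ Icc 1 X, G x.1 n * G x.2 (n + t) := by
  set w : ℕ → ℂ := fun m => ∑ b ∈ P, ∑ h ∈ Icc 1 H, c b h * tr (u b) X (m - h) with hw
  have h1 : ∑ b ∈ P, ∑ h ∈ Icc 1 H, c b h * ∑ n ∈ Icc 1 X, u b n * f (n + h) =
      ∑ m ∈ Icc 1 (2 * X), f m * w m := by
    have h2 : ∀ b ∈ P, ∑ h ∈ Icc 1 H, c b h * ∑ n ∈ Icc 1 X, u b n * f (n + h) =
        ∑ m ∈ Icc 1 (2 * X), f m * ∑ h ∈ Icc 1 H, c b h * tr (u b) X (m - h) := by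
      intro b _
      have h3 : ∀ h ∈ Icc 1 H, ∑ n ∈ Icc 1 X, u b n * f (n + h) =
          ∑ m ∈ Icc 1 (2 * X), tr (u b) X (m - h) * f m := by
        intro h hh
        rw [Finset.mem_Icc] at hh
        exact (sum_tr (u b) (fun m x => x * f m) (fun m => zero_mul _) (hh.2.trans hHX)).symm
      rw [Finset.sum_congr rfl fun h hh => by rw [h3 h hh]]
      simp only [Finset.mul_sum]
      rw [Finset.sum_comm]
      refine Finset.sum_congr rfl fun m _ => Finset.sum_congr rfl fun h _ => ?_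
      ring
    rw [Finset.sum_congr rfl h2, Finset.sum_comm]
    refine Finset.sum_congr rfl fun m _ => ?_
    rw [hw]
    simp only
    rw [Finset.mul_sum]
  have h2 : ‖∑ m ∈ Icc 1 (2 * X), f m * w m‖ ^ 2 ≤ 8 * X * ∑ m ∈ Icc 1 (2 * X), ‖w m‖ ^ 2 := by
    have h3 : ‖∑ m ∈ Icc 1 (2 * X), f m * w m‖ ≤ ∑ m ∈ Icc 1 (2 * X), ‖f m‖ * ‖w m‖ := by
      refine (norm_sum_le _ _).trans (le_of_eq (Finset.sum_congr rfl fun m _ => norm_mul _ _))
    calc ‖∑ m ∈ Icc 1 (2 * X), f m * w m‖ ^ 2 ≤ (∑ m ∈ Icc 1 (2 * X), ‖f m‖ * ‖w m‖) ^ 2 := by gcongr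
      _ ≤ (∑ m ∈ Icc 1 (2 * X), ‖f m‖ ^ 2) * ∑ m ∈ Icc 1 (2 * X), ‖w m‖ ^ 2 := Finset.sum_mul_sq_le_sq_mul_sq _ _ _
      _ ≤ (8 * X) * ∑ m ∈ Icc 1 (2 * X), ‖w m‖ ^ 2 := by
          refine mul_le_mul_of_nonneg_right ?_ (Finset.sum_nonneg fun _ _ => sq_nonneg _)
          calc ∑ m ∈ Icc 1 (2 * X), ‖f m‖ ^ 2 ≤ ∑ _m ∈ Icc 1 (2 * X), (4 : ℝ) := by
                refine Finset.sum_le_sum fun m _ => ?_
                have := hf m
                have h0 := norm_nonneg (f m)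
                nlinarith
            _ = 8 * X := by
                rw [Finset.sum_const, Nat.card_Icc, nsmul_eq_mul]
                push_cast [Nat.add_sub_cancel]
                ring
  rw [h1]
  refine h2.trans ?_
  have h16 : (16 : ℝ) * X = 8 * X * 2 := by ring
  rw [h16, mul_assoc (8 * (X : ℝ))]
  refine mul_le_mul_of_nonneg_left ?_ (by positivity)
  have h3 : ((∑ m ∈ Icc 1 (2 * X), ‖w m‖ ^ 2 : ℝ) : ℂ) =
      ∑ x ∈ P ×ˢ P, ∑ t ∈ Icc (-(H : ℤ)) H, rho2 (c x.1) (c x.2) H t * qq2 (u x.1) (u x.2) X t := by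
    push_cast
    have h4 : ∀ m, ((‖w m‖ : ℂ)) ^ 2 = ∑ x ∈ P ×ˢ P, ∑ y ∈ Icc 1 H ×ˢ Icc 1 H,
        c x.1 y.1 * conj (c x.2 y.2) * (tr (u x.1) X (m - y.1) * conj (tr (u x.2) X (m - y.2))) := by
      intro m
      rw [← Complex.mul_conj', hw]
      simp only
      rw [map_sum, Finset.sum_mul_sum, ← Finset.sum_product']
      refine Finset.sum_congr rfl fun x _ => ?_
      rw [map_sum, Finset.sum_mul_sum, ← Finset.sum_product']
      refine Finset.sum_congr rfl fun y _ => ?_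
      rw [map_mul]
      ring
    simp only [h4]
    rw [Finset.sum_comm]
    refine Finset.sum_congr rfl fun x _ => ?_
    rw [Finset.sum_comm, sum_rho2_mul]
    refine Finset.sum_congr rfl fun y hy => ?_
    rw [Finset.mem_product, Finset.mem_Icc, Finset.mem_Icc] at hy
    rw [← Finset.mul_sum, corr_eq2 (u x.1) (u x.2) X y.1 y.2 (hy.1.2.trans hHX) (hy.2.2.trans hHX)]
  have h7 : ∑ m ∈ Icc 1 (2 * X), ‖w m‖ ^ 2 = ‖((∑ m ∈ Icc 1 (2 * X), ‖w m‖ ^ 2 : ℝ) : ℂ)‖ := by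
    rw [Complex.norm_real, Real.norm_eq_abs, abs_of_nonneg (Finset.sum_nonneg fun _ _ => sq_nonneg _)]
  rw [h7, h3]
  set KK : ι → ι → ℕ → ℝ := fun b b' t => ∑ n ∈ Icc 1 X, G b n * G b' (n + t) with hKK
  have hqp : ∀ (b b' : ι) (t : ℕ), ‖qq2 (u b) (u b') X t‖ ≤ KK b b' t := by
    intro b b' t
    unfold qq2
    refine (norm_sum_le _ _).trans (Finset.sum_le_sum fun n _ => ?_)
    rw [norm_mul, RCLike.norm_conj]
    have e1 : (-(t : ℤ)).toNat = 0 := by omega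
    have e2 : ((t : ℤ)).toNat = t := by omega
    rw [e1, e2, add_zero]
    exact mul_le_mul (norm_tr_le2 (G b) (hG b) (u b) (hu b) X _) (norm_tr_le2 (G b') (hG b') (u b') (hu b') X _)
      (norm_nonneg _) (hG _ _)
  have hqn : ∀ (b b' : ι) (t : ℕ), ‖qq2 (u b) (u b') X (-(t : ℤ))‖ ≤ KK b' b t := by
    intro b b' t
    unfold qq2
    refine (norm_sum_le _ _).trans (Finset.sum_le_sum fun n _ => ?_)
    rw [norm_mul, RCLike.norm_conj, neg_neg]
    have e1 : (-(t : ℤ)).toNat = 0 := by omega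
    have e2 : ((t : ℤ)).toNat = t := by omega
    rw [e1, e2, add_zero, mul_comm]
    exact mul_le_mul (norm_tr_le2 (G b') (hG b') (u b') (hu b') X _) (norm_tr_le2 (G b) (hG b) (u b) (hu b) X _)
      (norm_nonneg _) (hG _ _)
  calc ‖∑ x ∈ P ×ˢ P, ∑ t ∈ Icc (-(H : ℤ)) H, rho2 (c x.1) (c x.2) H t * qq2 (u x.1) (u x.2) X t‖ ≤
        ∑ x ∈ P ×ˢ P, ∑ t ∈ Icc (-(H : ℤ)) H, ‖rho2 (c x.1) (c x.2) H t‖ * ‖qq2 (u x.1) (u x.2) X t‖ := by
        refine (norm_sum_le _ _).trans (Finset.sum_le_sum fun x _ => ?_)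
        refine (norm_sum_le _ _).trans (Finset.sum_le_sum fun t _ => ?_)
        rw [norm_mul]
    _ ≤ ∑ x ∈ P ×ˢ P, ∑ t ∈ range (H + 1), (‖rho2 (c x.1) (c x.2) H t‖ * KK x.1 x.2 t +
          ‖rho2 (c x.2) (c x.1) H t‖ * KK x.2 x.1 t) := by
        refine Finset.sum_le_sum fun x _ => ?_
        refine (sum_neg_pos H _ fun t => mul_nonneg (norm_nonneg _) (norm_nonneg _)).trans ?_
        refine Finset.sum_le_sum fun t _ => ?_
        refine add_le_add (mul_le_mul_of_nonneg_left (hqp _ _ _) (norm_nonneg _)) ?_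
        rw [norm_rho2_neg]
        exact mul_le_mul_of_nonneg_left (hqn _ _ _) (norm_nonneg _)
    _ = 2 * ∑ t ∈ range (H + 1), ∑ x ∈ P ×ˢ P, ‖rho2 (c x.1) (c x.2) H t‖ * KK x.1 x.2 t := by
        rw [Finset.sum_comm, Finset.mul_sum]
        refine Finset.sum_congr rfl fun t _ => ?_
        rw [Finset.sum_add_distrib, two_mul]
        congr 1
        refine Finset.sum_nbij' Prod.swap Prod.swap ?_ ?_ ?_ ?_ ?_
        · intro x hx
          rw [Finset.mem_product] at hx ⊢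
          exact ⟨hx.2, hx.1⟩
        · intro x hx
          rw [Finset.mem_product] at hx ⊢
          exact ⟨hx.2, hx.1⟩
        · intro x _
          exact Prod.swap_swap x
        · intro x _
          exact Prod.swap_swap x
        · intro x _
          rfl

end Pool.Agent.Helper83.HLD
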