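import Pool.Agent.Helper83.HLD.Pairs
import Pool.Agent.Helper83.HLD.Vec

/-!
# HLD-5: the theorem for bounded functions of `Ω`
-/

set_option autoImplicit false

namespace Pool.Agent.Helper83.HLD

open Finset ComplexConjugate Pool.Agent.Helper83.HLC

/-- The first and the second moment. -/
theorem mom12 {k : ℕ} (r : ℕ) (a : Fin k → ℕ) (ha : Function.Injective a) : ∃ B : ℝ, 0 < B ∧
    ∀ Y X : ℕ, 2 ≤ Y → X ≤ Y → ∑ i, a i ≤ Y → ∀ z N : Fin r → ℕ, (∀ j, z j + N j ≤ Y) →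
    (∀ j, 1 ≤ N j) → (∀ j, Real.log Y ≤ N j) →
    (∑ β ∈ box z N, ∑ n ∈ Icc 1 X, GG a n * GG β n ≤ B * (∏ j, (N j : ℝ)) * Y) ∧
    (∑ n ∈ Icc 1 X, GG a n * (∑ β ∈ box z N, GG β n) ^ 2 ≤ B * (∏ j, (N j : ℝ)) ^ 2 * Y) := by
  set M : ℕ := k + (r + r) with hM
  set p : ℕ := 2 * M ^ 3 with hp
  obtain ⟨C1, hC1, h1⟩ := moments M p le_rfl r k (by omega)
  obtain ⟨C2, hC2, h2⟩ := moments M p le_rfl (r + r) k le_rfl
  set w0 : ℝ := wt p (univ.image a) with hw0
  have hw01 : 1 ≤ w0 := one_le_wt _ _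
  refine ⟨(C1 + C2) * w0, by positivity, fun Y X hY hXY hAY z N hz hN hlog => ?_⟩
  set Q : ℝ := ∏ j, (N j : ℝ) with hQ
  have hQ0 : 0 ≤ Q := Finset.prod_nonneg fun _ _ => Nat.cast_nonneg _
  have hY0 : (0 : ℝ) ≤ Y := Nat.cast_nonneg _
  have him : ∀ x ∈ univ.image a, x ≤ Y := by
    intro x hx
    rw [Finset.mem_image] at hx
    obtain ⟨i, _, rfl⟩ := hx
    have := a_le_sum a i
    omega
  constructor
  · have e1 := (h1 Y hY z N hz hlog hN (univ.image a) (image_card ha) him).1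
    calc ∑ β ∈ box z N, ∑ n ∈ Icc 1 X, GG a n * GG β n ≤ ∑ β ∈ box z N, FF Y (univ.image a) β := by
          refine Finset.sum_le_sum fun β _ => ?_
          unfold FF
          simp only [PS_image ha]
          exact Finset.sum_le_sum_of_subset_of_nonneg (Finset.Icc_subset_Icc_right hXY)
            fun n _ _ => mul_nonneg (GG_nonneg _ _) (GG_nonneg _ _)
      _ ≤ C1 * Q * Y * w0 := e1
      _ ≤ (C1 + C2) * w0 * Q * Y := by
          have : 0 ≤ C2 * Q * Y * w0 := by positivity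
          nlinarith
  · have hprod : ∏ i, ((Fin.append N N i : ℕ) : ℝ) = Q ^ 2 := by
      rw [Fin.prod_univ_add]
      simp only [Fin.append_left, Fin.append_right]
      rw [sq]
    have e1 := (h2 Y hY (Fin.append z (fun j => z j + 0)) (Fin.append N N) (by
      intro i
      refine Fin.addCases (fun j => ?_) (fun j => ?_) i
      · rw [Fin.append_left, Fin.append_left]
        exact hz j
      · rw [Fin.append_right, Fin.append_right]
        exact hz j) (by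
      intro i
      refine Fin.addCases (fun j => ?_) (fun j => ?_) i
      · rw [Fin.append_left]
        exact hlog j
      · rw [Fin.append_right]
        exact hlog j) (by
      intro i
      refine Fin.addCases (fun j => ?_) (fun j => ?_) i
      · rw [Fin.append_left]
        exact hN j
      · rw [Fin.append_right]
        exact hN j) (univ.image a) (image_card ha) him).1
    rw [hprod] at e1
    have e2 : ∑ x ∈ box z N ×ˢ box z N, FF Y (univ.image a) (ph 0 x) ≤ C2 * Q ^ 2 * Y * w0 :=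
      (sum_ph_le 0 z N (fun β => FF Y (univ.image a) β) fun β => FF_nonneg _ _ β).trans e1
    calc ∑ n ∈ Icc 1 X, GG a n * (∑ β ∈ box z N, GG β n) ^ 2 ≤
          ∑ n ∈ Icc 1 Y, GG a n * (∑ β ∈ box z N, GG β n) ^ 2 :=
          Finset.sum_le_sum_of_subset_of_nonneg (Finset.Icc_subset_Icc_right hXY)
            fun n _ _ => mul_nonneg (GG_nonneg _ _) (sq_nonneg _)
      _ = ∑ x ∈ box z N ×ˢ box z N, FF Y (univ.image a) (ph 0 x) := by
          unfold FF
          rw [Finset.sum_comm]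
          refine Finset.sum_congr rfl fun n _ => ?_
          rw [sq, Finset.sum_mul_sum, ← Finset.sum_product', Finset.mul_sum]
          refine Finset.sum_congr rfl fun x _ => ?_
          rw [PS_image ha, GG_ph, add_zero]
      _ ≤ C2 * Q ^ 2 * Y * w0 := e2
      _ ≤ (C1 + C2) * w0 * Q ^ 2 * Y := by
          have : 0 ≤ C1 * Q ^ 2 * Y * w0 := by positivity
          nlinarith

theorem main (hE : MRP.EXPx) (hL : MRP.LAWx) {k : ℕ} (r : ℕ) (a : Fin k → ℕ) (ha : Function.Injective a)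
    (ε : ℝ) (hε : 0 < ε) :
    ∃ K : ℝ, 1 ≤ K ∧ ∃ X1 : ℕ, ∀ X : ℕ, X1 ≤ X → ∀ z N : Fin r → ℕ, (∀ j, z j ≤ X) → (∀ j, N j ≤ X) →
      (∀ j, K * Real.log X ≤ N j) → ∀ H : ℕ, K * Real.log X ^ k ≤ H → H ≤ X → ∀ y : ℕ, y ≤ X →
      ∀ b : ℕ → ℝ, (∀ m, |b m| ≤ 1) → ∀ u : (Fin r → ℕ) → ℕ → ℂ, (∀ β n, ‖u β n‖ ≤ GG a n * GG β n) →
      ∑ β ∈ box z N, ∑ h ∈ Icc 1 H, ‖∑ n ∈ Icc 1 X, u β n * fy X b y (n + h)‖ ≤
        ε * (∏ j, (N j : ℝ)) * H * X := by
  obtain ⟨B, hB, hmom⟩ := mom12 r a ha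
  obtain ⟨C, hC, hpairs⟩ := pairs r a ha
  set B3 : ℝ := 1 + 8 * B with hB3
  have hB30 : 0 < B3 := by positivity
  set η : ℝ := min 1 (ε ^ 4 / (128 * C * B3 ^ 2)) with hη
  have hη0 : 0 < η := lt_min one_pos (by positivity)
  have hη1 : η ≤ 1 := min_le_left _ _
  have hηε : 128 * C * B3 ^ 2 * η ≤ ε ^ 4 := by
    have e : η ≤ ε ^ 4 / (128 * C * B3 ^ 2) := min_le_right _ _
    rw [le_div_iff₀ (by positivity)] at e
    linarith
  set δ : ℝ := η ^ 4 / (8 * B) with hδ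
  have hδ0 : 0 < δ := by positivity
  obtain ⟨H2, X2, h2⟩ := smooth hE hL a ha δ 1 hδ0 one_pos
  set K : ℝ := 1 + H2 + (2 + 2 ^ k) / η with hK
  have hK1 : 1 ≤ K := by
    have : 0 ≤ (H2 : ℝ) + (2 + 2 ^ k) / η := by positivity
    linarith
  refine ⟨K, hK1, max X2 (4 + ∑ i, a i), fun X hX z N hz hNX hNK H hHK hHX y hy b hb u hu => ?_⟩
  have hX2 : X2 ≤ X := (le_max_left _ _).trans hX
  have hX4 : 4 + ∑ i, a i ≤ X := (le_max_right _ _).trans hX
  have hXR : (4 : ℝ) ≤ X := by exact_mod_cast (by omega : 4 ≤ X)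
  have hX0 : (0 : ℝ) < X := by linarith
  have hLg : 1 ≤ Real.log X := by
    rw [Real.le_log_iff_exp_le (by linarith)]
    exact (Real.exp_one_lt_d9.le.trans (by norm_num)).trans hXR
  have hLk : 1 ≤ Real.log X ^ k := one_le_pow₀ hLg
  have hHKR : K ≤ H := by
    have : K * 1 ≤ K * Real.log X ^ k := mul_le_mul_of_nonneg_left hLk (by linarith)
    linarith
  have hHR : (1 : ℝ) ≤ H := hK1.trans hHKR
  have hH0 : (0 : ℝ) < H := by linarith
  have hH1 : 1 ≤ H := by exact_mod_cast hHR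
  have hfr : 0 ≤ (2 + (2 : ℝ) ^ k) / η := by positivity
  have hH2 : H2 ≤ H := by
    have : (H2 : ℝ) ≤ H := by
      have : (H2 : ℝ) ≤ K := by rw [hK]; linarith
      linarith
    exact_mod_cast this
  have hHL : 1 * Real.log X ^ k ≤ H := (mul_le_mul_of_nonneg_right hK1 (by linarith)).trans hHK
  have hN1 : ∀ j, 1 ≤ N j := by
    intro j
    have h3 := hNK j
    have : (1 : ℝ) ≤ N j := by nlinarith
    exact_mod_cast this
  -- the height
  set Y : ℕ := 3 * X + ∑ i, a i with hY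
  have hY4 : (Y : ℝ) ≤ 4 * X := by exact_mod_cast (by omega : Y ≤ 4 * X)
  have hY3 : 3 ≤ Y := by omega
  have hYR : (3 : ℝ) ≤ Y := by exact_mod_cast hY3
  have hlogY : Real.log Y ≤ 2 * Real.log X := by
    have e : (Y : ℝ) ≤ (X : ℝ) ^ 2 := by nlinarith
    have := Real.log_le_log (by linarith) e
    rw [Real.log_pow] at this
    exact_mod_cast this
  have hlogY0 : 0 ≤ Real.log Y := Real.log_nonneg (by linarith)
  have hKη : 2 ≤ η * K ∧ 2 ^ k ≤ η * K := by
    have e : η * K = η * (1 + H2) + (2 + 2 ^ k) := by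
      rw [hK]
      field_simp
    have e2 : 0 ≤ η * (1 + (H2 : ℝ)) := by positivity
    have e3 : (0 : ℝ) < 2 ^ k := by positivity
    constructor <;> linarith
  have hκN : ∀ j, Real.log Y ≤ η * N j := by
    intro j
    have e1 := mul_le_mul_of_nonneg_left (hNK j) hη0.le
    have e2 : 2 * Real.log X ≤ η * K * Real.log X := mul_le_mul_of_nonneg_right hKη.1 (by linarith)
    linarith
  have hlogN : ∀ j, Real.log Y ≤ N j := fun j => (hκN j).trans (mul_le_of_le_one_left (Nat.cast_nonneg _) hη1)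
  have hκH : k ≠ 0 → Real.log Y ^ k ≤ η * H := by
    intro _
    calc Real.log Y ^ k ≤ (2 * Real.log X) ^ k := pow_le_pow_left₀ hlogY0 hlogY k
      _ = 2 ^ k * Real.log X ^ k := mul_pow _ _ _
      _ ≤ η * K * Real.log X ^ k := mul_le_mul_of_nonneg_right hKη.2 (by linarith)
      _ = η * (K * Real.log X ^ k) := by ring
      _ ≤ η * H := mul_le_mul_of_nonneg_left hHK hη0.le
  set Q : ℝ := ∏ j, (N j : ℝ) with hQ
  have hQ0 : 0 < Q := Finset.prod_pos fun j _ => by exact_mod_cast hN1 j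
  obtain ⟨m1, m2⟩ := hmom Y X (by omega) (by omega) (by omega) z N
    (fun j => by have := hz j; have := hNX j; omega) hN1 hlogN
  have m1' : ∑ β ∈ box z N, ∑ n ∈ Icc 1 X, GG a n * GG β n ≤ 4 * B * Q * X := by
    refine m1.trans ?_
    have : B * Q * Y ≤ B * Q * (4 * X) := mul_le_mul_of_nonneg_left hY4 (by positivity)
    linarith
  have m2' : ∑ n ∈ Icc 1 X, GG a n * (∑ β ∈ box z N, GG β n) ^ 2 ≤ 4 * B * Q ^ 2 * X := by
    refine m2.trans ?_
    have : B * Q ^ 2 * Y ≤ B * Q ^ 2 * (4 * X) := mul_le_mul_of_nonneg_left hY4 (by positivity)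
    linarith
  -- the correlations
  set D : (Fin r → ℕ) → ℕ → ℂ := fun β h => ∑ n ∈ Icc 1 X, u β n * fy X b y (n + h) with hD
  set A : (Fin r → ℕ) → ℝ := fun β => X + 2 * ∑ n ∈ Icc 1 X, GG a n * GG β n with hA
  have hS0 : ∀ β : Fin r → ℕ, 0 ≤ ∑ n ∈ Icc 1 X, GG a n * GG β n := fun β =>
    Finset.sum_nonneg fun n _ => mul_nonneg (GG_nonneg _ _) (GG_nonneg _ _)
  have hAX : ∀ β, (X : ℝ) ≤ A β := fun β => by
    have := hS0 β
    rw [hA]
    simp only
    linarith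
  have hA0 : ∀ β, 0 < A β := fun β => hX0.trans_le (hAX β)
  have hDle : ∀ β h, ‖D β h‖ ≤ A β := by
    intro β h
    rw [hD]
    simp only
    refine (norm_sum_le _ _).trans ?_
    calc ∑ n ∈ Icc 1 X, ‖u β n * fy X b y (n + h)‖ ≤ ∑ n ∈ Icc 1 X, GG a n * GG β n * 2 := by
          refine Finset.sum_le_sum fun n _ => ?_
          rw [norm_mul]
          exact mul_le_mul (hu β n) (norm_fy_le X hb y _) (norm_nonneg _) (mul_nonneg (GG_nonneg _ _) (GG_nonneg _ _))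
      _ = 2 * ∑ n ∈ Icc 1 X, GG a n * GG β n := by rw [← Finset.sum_mul, mul_comm]
      _ ≤ A β := by
          rw [hA]
          simp only
          linarith
  set c : (Fin r → ℕ) → ℕ → ℂ := fun β h => conj (D β h) * ((1 / A β : ℝ) : ℂ) with hc
  have hc1 : ∀ β h, ‖c β h‖ ≤ 1 := by
    intro β h
    have := hA0 β
    rw [hc]
    simp only
    rw [norm_mul, RCLike.norm_conj, Complex.norm_real, Real.norm_eq_abs, abs_of_pos (by positivity),
      mul_one_div, div_le_one this]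
    exact hDle β h
  -- the Fourier bound
  have hF : ∀ α : ℝ, ∑ β ∈ box z N, ‖∑ h ∈ Icc 1 H, c β h * MRP.eC ((h : ℝ) * α)‖ ^ 2 ≤ η ^ 2 * Q * H ^ 2 := by
    intro α
    have e0 : ∀ β, ‖∑ h ∈ Icc 1 H, c β h * MRP.eC ((h : ℝ) * α)‖ ≤ H := by
      intro β
      refine (norm_sum_le _ _).trans ?_
      calc ∑ h ∈ Icc 1 H, ‖c β h * MRP.eC ((h : ℝ) * α)‖ ≤ ∑ _h ∈ Icc 1 H, (1 : ℝ) := by
            refine Finset.sum_le_sum fun h _ => ?_
            rw [norm_mul, norm_eC, mul_one]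
            exact hc1 β h
        _ = H := by simp
    have e1 : ∀ β, ‖∑ h ∈ Icc 1 H, c β h * MRP.eC ((h : ℝ) * α)‖ ≤
        1 / X * ∑ n ∈ Icc 1 X, GG a n * GG β n * ‖TT (fy X b y) H (-α) n‖ := by
      intro β
      have hAβ := hA0 β
      have e2 : ∑ h ∈ Icc 1 H, c β h * MRP.eC ((h : ℝ) * α) =
          ((1 / A β : ℝ) : ℂ) * conj (∑ n ∈ Icc 1 X, u β n * TT (fy X b y) H (-α) n) := by
        unfold TT
        rw [map_sum, Finset.mul_sum]
        simp only [hc, hD, map_sum, map_mul, Finset.mul_sum, Finset.sum_mul]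
        rw [Finset.sum_comm]
        refine Finset.sum_congr rfl fun n _ => Finset.sum_congr rfl fun h _ => ?_
        have e3 : conj (MRP.eC ((h : ℝ) * -α)) = MRP.eC ((h : ℝ) * α) := by
          rw [← eC_neg]
          congr 1
          ring
        rw [e3]
        ring
      rw [e2, norm_mul, RCLike.norm_conj, Complex.norm_real, Real.norm_eq_abs, abs_of_pos (by positivity)]
      have e3 : ‖∑ n ∈ Icc 1 X, u β n * TT (fy X b y) H (-α) n‖ ≤
          ∑ n ∈ Icc 1 X, GG a n * GG β n * ‖TT (fy X b y) H (-α) n‖ := by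
        refine (norm_sum_le _ _).trans (Finset.sum_le_sum fun n _ => ?_)
        rw [norm_mul]
        exact mul_le_mul_of_nonneg_right (hu β n) (norm_nonneg _)
      refine mul_le_mul ?_ e3 (norm_nonneg _) (by positivity)
      exact one_div_le_one_div_of_le hX0 (hAX β)
    have e2 : ∑ β ∈ box z N, ‖∑ h ∈ Icc 1 H, c β h * MRP.eC ((h : ℝ) * α)‖ ^ 2 ≤
        H * (1 / X * ∑ n ∈ Icc 1 X, GG a n * (∑ β ∈ box z N, GG β n) * ‖TT (fy X b y) H (-α) n‖) := by
      have e3 : ∑ n ∈ Icc 1 X, GG a n * (∑ β ∈ box z N, GG β n) * ‖TT (fy X b y) H (-α) n‖ =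
          ∑ β ∈ box z N, ∑ n ∈ Icc 1 X, GG a n * GG β n * ‖TT (fy X b y) H (-α) n‖ := by
        rw [Finset.sum_comm]
        refine Finset.sum_congr rfl fun n _ => ?_
        rw [Finset.mul_sum, Finset.sum_mul]
      rw [e3, Finset.mul_sum, Finset.mul_sum]
      refine Finset.sum_le_sum fun β _ => ?_
      rw [sq]
      exact mul_le_mul (e0 β) (e1 β) (norm_nonneg _) hH0.le
    refine e2.trans ?_
    have e3 : ∑ n ∈ Icc 1 X, GG a n * (∑ β ∈ box z N, GG β n) * ‖TT (fy X b y) H (-α) n‖ ≤ η ^ 2 * Q * H * X := by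
      refine (abs_le_of_sq_le_sq' ?_ (by positivity)).2
      refine (Finset.sum_sq_le_sum_mul_sum_of_sq_le_mul (Icc 1 X)
        (f := fun n => GG a n * (∑ β ∈ box z N, GG β n) ^ 2) (g := fun n => GG a n * ‖TT (fy X b y) H (-α) n‖ ^ 2)
        (fun n _ => mul_nonneg (GG_nonneg _ _) (sq_nonneg _)) (fun n _ => mul_nonneg (GG_nonneg _ _) (sq_nonneg _))
        (fun n _ => le_of_eq (by ring))).trans ?_
      have e4 : ∑ n ∈ Icc 1 X, GG a n * ‖TT (fy X b y) H (-α) n‖ ^ 2 ≤ 2 * H * (δ * H * X) := by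
        refine le_trans ?_ (mul_le_mul_of_nonneg_left (h2 X hX2 H hH2 hHL hHX y hy b hb (-α))
          (by positivity : (0 : ℝ) ≤ 2 * H))
        rw [Finset.mul_sum]
        refine Finset.sum_le_sum fun n _ => ?_
        have e5 := norm_TT_le (norm_fy_le X hb y) H (-α) n
        have e6 : ‖TT (fy X b y) H (-α) n‖ ^ 2 ≤ 2 * H * ‖TT (fy X b y) H (-α) n‖ := by
          rw [sq]
          exact mul_le_mul_of_nonneg_right e5 (norm_nonneg _)
        calc GG a n * ‖TT (fy X b y) H (-α) n‖ ^ 2 ≤ GG a n * (2 * H * ‖TT (fy X b y) H (-α) n‖) :=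
              mul_le_mul_of_nonneg_left e6 (GG_nonneg _ _)
          _ = _ := by ring
      refine (mul_le_mul m2' e4 (Finset.sum_nonneg fun n _ => mul_nonneg (GG_nonneg _ _) (sq_nonneg _))
        (by positivity)).trans (le_of_eq ?_)
      have e7 : 8 * B * δ = η ^ 4 := by rw [hδ]; field_simp
      calc 4 * B * Q ^ 2 * X * (2 * H * (δ * H * X)) = (8 * B * δ) * (Q * H * X) ^ 2 := by ring
        _ = (η ^ 2 * Q * H * X) ^ 2 := by rw [e7]; ring
    calc (H : ℝ) * (1 / X * ∑ n ∈ Icc 1 X, GG a n * (∑ β ∈ box z N, GG β n) * ‖TT (fy X b y) H (-α) n‖) ≤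
          H * (1 / X * (η ^ 2 * Q * H * X)) := by gcongr
      _ = η ^ 2 * Q * H ^ 2 := by field_simp
  have hsumc : ∑ β ∈ box z N, ∑ h ∈ Icc 1 H, ‖c β h‖ ^ 2 ≤ Q * H := by
    calc ∑ β ∈ box z N, ∑ h ∈ Icc 1 H, ‖c β h‖ ^ 2 ≤ ∑ _β ∈ box z N, ∑ _h ∈ Icc 1 H, (1 : ℝ) :=
          Finset.sum_le_sum fun β _ => Finset.sum_le_sum fun h _ => pow_le_one₀ (norm_nonneg _) (hc1 β h)
      _ = Q * H := by
          rw [Finset.sum_const, Finset.sum_const, Nat.card_Icc, Nat.add_sub_cancel, nsmul_eq_mul, nsmul_eq_mul,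
            mul_one, card_box]
  have hrho : ∑ t ∈ range (H + 1), ∑ x ∈ box z N ×ˢ box z N, ‖rho2 (c x.1) (c x.2) H t‖ ^ 2 ≤
      η ^ 2 * Q ^ 2 * H ^ 3 := by
    rw [Finset.sum_comm]
    have e1 := sum_rho2_sq (box z N) c H (η ^ 2 * Q * H ^ 2) hF
    have e2 : ∑ x ∈ box z N ×ˢ box z N, ∑ t ∈ range (H + 1), ‖rho2 (c x.1) (c x.2) H t‖ ^ 2 ≤
        ∑ x ∈ box z N ×ˢ box z N, ∑ t ∈ Icc (-(H : ℤ)) H, ‖rho2 (c x.1) (c x.2) H t‖ ^ 2 := by
      refine Finset.sum_le_sum fun x _ => ?_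
      refine sum_inj_le (range (H + 1)) (Icc (-(H : ℤ)) H) (fun t : ℕ => (t : ℤ)) ?_ ?_
        (fun t => ‖rho2 (c x.1) (c x.2) H t‖ ^ 2) fun _ => sq_nonneg _
      · intro s _ t _ hst
        have hst' : (s : ℤ) = (t : ℤ) := hst
        exact_mod_cast hst'
      · intro t ht
        rw [Finset.mem_range] at ht
        rw [Finset.mem_Icc]
        omega
    refine e2.trans (e1.trans ?_)
    refine (mul_le_mul_of_nonneg_left hsumc (by positivity)).trans (le_of_eq ?_)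
    ring
  have hpr := hpairs Y X H hY3 (by omega) hH1 (by omega) z N (fun j => by have := hz j; have := hNX j; omega) hN1
    η η hη0.le hη1 hη0.le hκN hκH (fun β β' t => ‖rho2 (c β) (c β') H t‖) (fun _ _ _ => norm_nonneg _)
    (fun β β' t => norm_rho2_le _ _ (hc1 β) (hc1 β') H t) hrho
  have hcs := cs_vec (box z N) (fun β n => GG a n * GG β n) (fun β n => mul_nonneg (GG_nonneg _ _) (GG_nonneg _ _))
    u hu X H hHX (fy X b y) c (norm_fy_le X hb y)
  have e3 : ∑ β ∈ box z N, ∑ h ∈ Icc 1 H, c β h * ∑ n ∈ Icc 1 X, u β n * fy X b y (n + h) =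
      ((∑ β ∈ box z N, ∑ h ∈ Icc 1 H, ‖D β h‖ ^ 2 / A β : ℝ) : ℂ) := by
    push_cast
    refine Finset.sum_congr rfl fun β _ => Finset.sum_congr rfl fun h _ => ?_
    change conj (D β h) * ((1 / A β : ℝ) : ℂ) * D β h = _
    rw [← Complex.mul_conj']
    push_cast
    ring
  rw [e3, Complex.norm_real, Real.norm_eq_abs, sq_abs] at hcs
  have e4 : (∑ β ∈ box z N, ∑ h ∈ Icc 1 H, ‖D β h‖ ^ 2 / A β) ^ 2 ≤ (ε ^ 2 / B3 * (Q * H * X)) ^ 2 := by
    refine hcs.trans ?_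
    have e5 : ∑ t ∈ range (H + 1), ∑ x ∈ box z N ×ˢ box z N, ‖rho2 (c x.1) (c x.2) H t‖ *
        ∑ n ∈ Icc 1 X, GG a n * GG x.1 n * (GG a (n + t) * GG x.2 (n + t)) ≤
        C * (η + η) * Y * Q ^ 2 * H ^ 2 := hpr
    calc 16 * (X : ℝ) * _ ≤ 16 * X * (C * (η + η) * Y * Q ^ 2 * H ^ 2) :=
          mul_le_mul_of_nonneg_left e5 (by positivity)
      _ ≤ 16 * X * (C * (η + η) * (4 * X) * Q ^ 2 * H ^ 2) := by gcongr
      _ = (128 * C * η) * (Q * H * X) ^ 2 := by ring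
      _ ≤ (ε ^ 2 / B3) ^ 2 * (Q * H * X) ^ 2 := by
          refine mul_le_mul_of_nonneg_right ?_ (sq_nonneg _)
          rw [div_pow, le_div_iff₀ (by positivity)]
          calc 128 * C * η * B3 ^ 2 = 128 * C * B3 ^ 2 * η := by ring
            _ ≤ ε ^ 4 := hηε
            _ = (ε ^ 2) ^ 2 := by ring
      _ = _ := by ring
  have e5 : ∑ β ∈ box z N, ∑ h ∈ Icc 1 H, ‖D β h‖ ^ 2 / A β ≤ ε ^ 2 / B3 * (Q * H * X) :=
    (abs_le_of_sq_le_sq' e4 (by positivity)).2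
  have e6 : ∑ β ∈ box z N, ∑ _h ∈ Icc 1 H, A β ≤ B3 * (Q * H * X) := by
    have e7 : ∑ β ∈ box z N, ∑ _h ∈ Icc 1 H, A β = H * (Q * X + 2 * ∑ β ∈ box z N, ∑ n ∈ Icc 1 X, GG a n * GG β n) := by
      simp only [Finset.sum_const, Nat.card_Icc, Nat.add_sub_cancel, nsmul_eq_mul, hA]
      rw [← Finset.mul_sum, Finset.sum_add_distrib, Finset.sum_const, nsmul_eq_mul, card_box, ← Finset.mul_sum]
    rw [e7]
    calc (H : ℝ) * (Q * X + 2 * ∑ β ∈ box z N, ∑ n ∈ Icc 1 X, GG a n * GG β n) ≤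
          H * (Q * X + 2 * (4 * B * Q * X)) := by gcongr
      _ = B3 * (Q * H * X) := by rw [hB3]; ring
  refine (abs_le_of_sq_le_sq' ?_ (by positivity)).2
  rw [← Finset.sum_product' (box z N) (Icc 1 H) (fun β h => ‖D β h‖)]
  refine (Finset.sum_sq_le_sum_mul_sum_of_sq_le_mul (box z N ×ˢ Icc 1 H)
    (f := fun x => ‖D x.1 x.2‖ ^ 2 / A x.1) (g := fun x => A x.1)
    (fun x _ => div_nonneg (sq_nonneg _) (hA0 _).le) (fun x _ => (hA0 _).le)
    (fun x _ => le_of_eq (by rw [div_mul_cancel₀ _ (hA0 _).ne']))).trans ?_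
  rw [Finset.sum_product' (box z N) (Icc 1 H) (fun β h => ‖D β h‖ ^ 2 / A β),
    Finset.sum_product' (box z N) (Icc 1 H) (fun β _ => A β)]
  refine (mul_le_mul e5 e6 (Finset.sum_nonneg fun β _ => Finset.sum_nonneg fun _ _ => (hA0 β).le)
    (by positivity)).trans (le_of_eq ?_)
  field_simp

end Pool.Agent.Helper83.HLD
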