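import Pool.Agent.Helper83.HLC.Final
import Pool.Agent.Helper83.HLD.Main

/-!
# HLD-6: the theorem for the Liouville function and for centred bounded functions of `Ω`
-/

set_option autoImplicit false

namespace Pool.Agent.Helper83.HLD

open Finset Pool.Agent.Helper83.HLC

theorem final (hE : MRP.EXPx) (hL : MRP.LAWx) (k r : ℕ) (a : Fin k → ℕ) (ha : Function.Injective a)
    (ε : ℝ) (hε : 0 < ε) :
    ∃ K : ℝ, ∃ X₀ : ℕ, ∀ X : ℕ, X₀ ≤ X → ∀ z B : Fin r → ℕ, (∀ j, z j ≤ X) →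
      (∀ j, K * Real.log X ≤ B j) → (∀ j, B j ≤ X) →
      ∀ H y : ℕ, K * Real.log X ^ k ≤ H → H ≤ X → y ≤ X →
      ∀ f : ℕ → ℝ, Centred X f → ∀ g : (Fin r → ℕ) → ℕ → ℂ, (∀ b n, ‖g b n‖ ≤ 1) →
        ∑ b ∈ Fintype.piFinset (fun j => Ioc (z j) (z j + B j)), ∑ h ∈ Ioc y (y + H), ‖∑ n ∈ Icc 1 X,
          (∏ i, (ArithmeticFunction.vonMangoldt (n + a i) : ℂ)) *
            (∏ j, (ArithmeticFunction.vonMangoldt (n + b j) : ℂ)) * g b n * (f (n + h) : ℂ)‖ ≤
          ε * (∏ j, (B j : ℝ)) * H * X := by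
  obtain ⟨K, hK1, X1, h1⟩ := main hE hL r a ha (ε / 2) (by positivity)
  obtain ⟨C1, hC1, h2⟩ := mom12 r a ha
  obtain ⟨X3, h3⟩ := mx_lam hL (ε / (8 * C1)) (by positivity)
  refine ⟨2 * K, max (max X1 X3) (4 + ∑ i, a i), fun X hX z B hz hKB hBX H y hH hHX hy f hf g hg => ?_⟩
  have hX1 : X1 ≤ X := (le_max_left _ _).trans ((le_max_left _ _).trans hX)
  have hX3 : X3 ≤ X := (le_max_right _ _).trans ((le_max_left _ _).trans hX)
  have hX4 : 4 + ∑ i, a i ≤ X := (le_max_right _ _).trans hX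
  have hXR : (4 : ℝ) ≤ X := by exact_mod_cast (by omega : 4 ≤ X)
  have hLg : 1 ≤ Real.log X := by
    rw [Real.le_log_iff_exp_le (by linarith)]
    exact (Real.exp_one_lt_d9.le.trans (by norm_num)).trans hXR
  have hLk : 1 ≤ Real.log X ^ k := one_le_pow₀ hLg
  have hKH : K * Real.log X ^ k ≤ H := by
    refine le_trans ?_ hH
    nlinarith
  have hKB' : ∀ j, K * Real.log X ≤ B j := by
    intro j
    refine le_trans ?_ (hKB j)
    nlinarith
  have hB1 : ∀ j, 1 ≤ B j := by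
    intro j
    have h4 := hKB' j
    have : (1 : ℝ) ≤ B j := by nlinarith
    exact_mod_cast this
  have hH0 : (0 : ℝ) ≤ H := Nat.cast_nonneg _
  have hX00 : (0 : ℝ) ≤ X := Nat.cast_nonneg _
  set Q : ℝ := ∏ j, (B j : ℝ) with hQ
  have hQ0 : 0 ≤ Q := Finset.prod_nonneg fun _ _ => Nat.cast_nonneg _
  -- the first moment
  set Y : ℕ := 2 * X with hY
  have hYR : (Y : ℝ) = 2 * X := by rw [hY]; push_cast; ring
  have hlogY : ∀ j, Real.log Y ≤ B j := by
    intro j
    refine le_trans ?_ (hKB j)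
    have e : (Y : ℝ) ≤ (X : ℝ) ^ 2 := by rw [hYR]; nlinarith
    have e2 := Real.log_le_log (by rw [hYR]; linarith) e
    rw [Real.log_pow] at e2
    have e3 : Real.log Y ≤ 2 * Real.log X := by exact_mod_cast e2
    nlinarith
  have hm1 := (h2 Y X (by omega) (by omega) (by omega) z B
    (fun j => by have := hz j; have := hBX j; omega) hB1 hlogY).1
  rw [hYR] at hm1
  set u : (Fin r → ℕ) → ℕ → ℂ := fun β n => (∏ i, (ArithmeticFunction.vonMangoldt (n + a i) : ℂ)) *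
    (∏ j, (ArithmeticFunction.vonMangoldt (n + β j) : ℂ)) * g β n with hu
  have hGn : ∀ {q : ℕ} (β : Fin q → ℕ) (n : ℕ), ‖∏ i, (ArithmeticFunction.vonMangoldt (n + β i) : ℂ)‖ = GG β n := by
    intro q β n
    rw [norm_prod]
    unfold GG
    refine Finset.prod_congr rfl fun i _ => ?_
    rw [Complex.norm_real, Real.norm_eq_abs, abs_of_nonneg ArithmeticFunction.vonMangoldt_nonneg]
  have hule : ∀ β n, ‖u β n‖ ≤ GG a n * GG β n := by
    intro β n
    rw [hu]
    simp only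
    rw [norm_mul, norm_mul, hGn, hGn]
    exact mul_le_of_le_one_right (mul_nonneg (GG_nonneg _ _) (GG_nonneg _ _)) (hg β n)
  have hshift : ∀ F : ℕ → ℝ, ∑ h ∈ Ioc y (y + H), F h = ∑ h ∈ Icc 1 H, F (y + h) := by
    intro F
    rw [show Ioc y (y + H) = (Icc 1 H).image (fun h => y + h) by
      ext x
      rw [Finset.mem_image, Finset.mem_Ioc]
      constructor
      · intro hx
        exact ⟨x - y, by rw [Finset.mem_Icc]; omega, by omega⟩
      · rintro ⟨h, hh, rfl⟩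
        rw [Finset.mem_Icc] at hh
        omega]
    rw [Finset.sum_image fun x _ z _ h => by simpa using h]
  change ∑ β ∈ box z B, ∑ h ∈ Ioc y (y + H), ‖∑ n ∈ Icc 1 X, u β n * (f (n + h) : ℂ)‖ ≤ _
  rw [Finset.sum_congr rfl fun β _ => hshift _]
  have hmain : ∀ b : ℕ → ℝ, (∀ m, |b m| ≤ 1) →
      ∑ β ∈ box z B, ∑ h ∈ Icc 1 H, ‖∑ n ∈ Icc 1 X, u β n * fy X b y (n + h)‖ ≤ ε / 2 * Q * H * X := fun b hb =>
    h1 X hX1 z B hz hBX hKB' H hKH hHX y hy b hb u hule
  rcases hf with hf | ⟨b, hb, hf⟩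
  · have e1 : ∀ β ∈ box z B, ∀ h ∈ Icc 1 H, ‖∑ n ∈ Icc 1 X, u β n * (f (n + (y + h)) : ℂ)‖ ≤
        ‖∑ n ∈ Icc 1 X, u β n * fy X (fun m => (-1) ^ m) y (n + h)‖ +
          (∑ n ∈ Icc 1 X, GG a n * GG β n) * (ε / (8 * C1)) := by
      intro β _ h _
      have e2 : ∑ n ∈ Icc 1 X, u β n * (f (n + (y + h)) : ℂ) =
          ∑ n ∈ Icc 1 X, u β n * fy X (fun m => (-1) ^ m) y (n + h) +
            ∑ n ∈ Icc 1 X, u β n * ((MRP.mx X (fun m => (-1) ^ m) : ℝ) : ℂ) := by
        rw [← Finset.sum_add_distrib]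
        refine Finset.sum_congr rfl fun n _ => ?_
        rw [hf, ← mul_add]
        congr 1
        unfold fy fb MRP.Om
        have e3 : n + (y + h) = n + h + y := by omega
        rw [e3]
        push_cast
        ring
      rw [e2]
      refine (norm_add_le _ _).trans (add_le_add le_rfl ?_)
      refine (norm_sum_le _ _).trans ?_
      calc ∑ n ∈ Icc 1 X, ‖u β n * ((MRP.mx X (fun m => (-1) ^ m) : ℝ) : ℂ)‖ ≤
            ∑ n ∈ Icc 1 X, GG a n * GG β n * (ε / (8 * C1)) := by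
            refine Finset.sum_le_sum fun n _ => ?_
            rw [norm_mul, Complex.norm_real, Real.norm_eq_abs]
            exact mul_le_mul (hule β n) (h3 X hX3) (abs_nonneg _) (mul_nonneg (GG_nonneg _ _) (GG_nonneg _ _))
        _ = (∑ n ∈ Icc 1 X, GG a n * GG β n) * (ε / (8 * C1)) := by rw [Finset.sum_mul]
    refine (Finset.sum_le_sum fun β hβ => Finset.sum_le_sum (e1 β hβ)).trans ?_
    have e4 := hmain (fun m => (-1) ^ m) (fun m => by simp)
    have e5 : ∑ β ∈ box z B, ∑ _h ∈ Icc 1 H, (∑ n ∈ Icc 1 X, GG a n * GG β n) * (ε / (8 * C1)) ≤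
        ε / 2 * Q * H * X := by
      calc ∑ β ∈ box z B, ∑ _h ∈ Icc 1 H, (∑ n ∈ Icc 1 X, GG a n * GG β n) * (ε / (8 * C1)) =
            H * ((∑ β ∈ box z B, ∑ n ∈ Icc 1 X, GG a n * GG β n) * (ε / (8 * C1))) := by
            simp only [Finset.sum_const, Nat.card_Icc, Nat.add_sub_cancel, nsmul_eq_mul]
            rw [← Finset.mul_sum, ← Finset.sum_mul]
        _ ≤ H * ((C1 * Q * (2 * X)) * (ε / (8 * C1))) := by gcongr
        _ = ε / 4 * Q * H * X := by field_simp; ring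
        _ ≤ ε / 2 * Q * H * X := by
            have : 0 ≤ ε * Q * H * X := by positivity
            linarith
    simp only [Finset.sum_add_distrib]
    calc _ ≤ ε / 2 * Q * H * X + ε / 2 * Q * H * X := add_le_add e4 e5
      _ = ε * Q * H * X := by ring
  · have e1 : ∀ β ∈ box z B, ∑ h ∈ Icc 1 H, ‖∑ n ∈ Icc 1 X, u β n * (f (n + (y + h)) : ℂ)‖ =
        ∑ h ∈ Icc 1 H, ‖∑ n ∈ Icc 1 X, u β n * fy X b y (n + h)‖ := by
      intro β _
      refine Finset.sum_congr rfl fun h _ => ?_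
      congr 1
      refine Finset.sum_congr rfl fun n _ => ?_
      rw [hf]
      congr 1
      unfold fy fb MRP.Om MRP.mx
      have e3 : n + (y + h) = n + h + y := by omega
      rw [e3]
    rw [Finset.sum_congr rfl e1]
    refine (hmain b hb).trans ?_
    have : 0 ≤ ε / 2 * Q * H * X := by positivity
    linarith

end Pool.Agent.Helper83.HLD
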