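import Pool.Agent.Helper83.HLC.Smooth
import Pool.Agent.Helper83.HLD.Mom

/-!
# HLD-3: the sum over the pairs
-/

set_option autoImplicit false

namespace Pool.Agent.Helper83.HLD

open Finset Pool.Agent.Helper83.HLC

/-- The set of the fixed shifts and their translates. -/
def st {k : ℕ} (a : Fin k → ℕ) (t : ℕ) : Finset ℕ := univ.image a ∪ univ.image (fun i => a i + t)

theorem a_le_sum {k : ℕ} (a : Fin k → ℕ) (i : Fin k) : a i ≤ ∑ i, a i :=
  Finset.single_le_sum (f := a) (fun _ _ => Nat.zero_le _) (Finset.mem_univ i)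

theorem st_disj {k : ℕ} (a : Fin k → ℕ) (t : ℕ) (ht : ∀ i j, a i + t ≠ a j) :
    Disjoint (univ.image a) (univ.image (fun i => a i + t)) := by
  rw [Finset.disjoint_left]
  intro x hx hx'
  rw [Finset.mem_image] at hx hx'
  obtain ⟨i, _, rfl⟩ := hx
  obtain ⟨j, _, h⟩ := hx'
  exact ht j i h

theorem inj_add {k : ℕ} {a : Fin k → ℕ} (ha : Function.Injective a) (t : ℕ) :
    Function.Injective (fun i => a i + t) := fun _ _ h => ha (Nat.add_right_cancel h)

theorem st_card {k : ℕ} {a : Fin k → ℕ} (ha : Function.Injective a) (t : ℕ) (ht : ∀ i j, a i + t ≠ a j) :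
    (st a t).card = 2 * k := by
  unfold st
  rw [Finset.card_union_of_disjoint (st_disj a t ht), Finset.card_image_of_injective _ ha,
    Finset.card_image_of_injective _ (inj_add ha t), Finset.card_univ, Fintype.card_fin]
  ring

theorem image_card {k : ℕ} {a : Fin k → ℕ} (ha : Function.Injective a) : (univ.image a).card = k := by
  rw [Finset.card_image_of_injective _ ha, Finset.card_univ, Fintype.card_fin]

theorem PS_image {k : ℕ} {a : Fin k → ℕ} (ha : Function.Injective a) (n : ℕ) : PS (univ.image a) n = GG a n := by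
  unfold PS GG
  rw [Finset.prod_image (fun i _ j _ h => ha h)]

theorem GG_add {k : ℕ} (a : Fin k → ℕ) (t n : ℕ) : GG (fun i => a i + t) n = GG a (n + t) := by
  unfold GG
  refine Finset.prod_congr rfl fun i _ => ?_
  rw [add_assoc, add_comm t]

theorem PS_st {k : ℕ} {a : Fin k → ℕ} (ha : Function.Injective a) (t : ℕ) (ht : ∀ i j, a i + t ≠ a j) (n : ℕ) :
    PS (st a t) n = GG a n * GG a (n + t) := by
  have h1 : PS (st a t) n = PS (univ.image a) n * PS (univ.image (fun i => a i + t)) n := by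
    unfold PS st
    rw [Finset.prod_union (st_disj a t ht)]
  rw [h1, PS_image ha, PS_image (inj_add ha t), GG_add]

theorem wt_st {k : ℕ} {a : Fin k → ℕ} (ha : Function.Injective a) (p t : ℕ) (ht : ∀ i j, a i + t ≠ a j) :
    wt p (st a t) = 1 + 2 * ∑ i, ∑ j, W (Nat.dist (a i) (a j)) ^ p +
      2 * ∑ i, ∑ j, W (Nat.dist (a i + t) (a j)) ^ p := by
  have hU : ∀ F : ℕ → ℝ, ∑ x ∈ st a t, F x = ∑ i, F (a i) + ∑ i, F (a i + t) := by
    intro F
    unfold st
    rw [Finset.sum_union (st_disj a t ht), Finset.sum_image (fun i _ j _ h => ha h),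
      Finset.sum_image (fun i _ j _ h => inj_add ha t h)]
  unfold wt
  simp only [hU]
  rw [Finset.sum_add_distrib, Finset.sum_add_distrib]
  have e1 : ∑ i, ∑ j, W (Nat.dist (a i + t) (a j + t)) ^ p = ∑ i, ∑ j, W (Nat.dist (a i) (a j)) ^ p := by
    refine Finset.sum_congr rfl fun i _ => Finset.sum_congr rfl fun j _ => ?_
    rw [Nat.dist_add_add_right]
  have e2 : ∑ i, ∑ j, W (Nat.dist (a i) (a j + t)) ^ p = ∑ i, ∑ j, W (Nat.dist (a i + t) (a j)) ^ p := by
    rw [Finset.sum_comm]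
    refine Finset.sum_congr rfl fun i _ => Finset.sum_congr rfl fun j _ => ?_
    rw [Nat.dist_comm]
  rw [e1, e2]
  ring

/-- The mean of the weight of `st a t`. -/
theorem sum_wt_st {k : ℕ} {a : Fin k → ℕ} (ha : Function.Injective a) (p : ℕ) : ∃ C : ℝ, 0 < C ∧
    ∀ Y H : ℕ, 2 ≤ Y → 1 ≤ H → ∑ i, a i + H ≤ Y → (k ≠ 0 → Real.log Y ≤ H) →
      ∑ t ∈ (range (H + 1)).filter (fun t => ∀ i j, a i + t ≠ a j), wt p (st a t) ≤ C * H := by
  obtain ⟨C, hC, h⟩ := sum_dist_short p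
  set A0 : ℝ := ∑ i, ∑ j, W (Nat.dist (a i) (a j)) ^ p with hA0
  have hA00 : 0 ≤ A0 := Finset.sum_nonneg fun _ _ => Finset.sum_nonneg fun _ _ => W_pow_nonneg _ _
  refine ⟨2 * (1 + 2 * A0) + 2 * (k * (k * C)), by positivity, fun Y H hY hH hAY hlog => ?_⟩
  have hHR : (1 : ℝ) ≤ H := by exact_mod_cast hH
  set T := (range (H + 1)).filter (fun t => ∀ i j, a i + t ≠ a j) with hT
  have h1 : ∑ t ∈ T, wt p (st a t) = ∑ _t ∈ T, (1 + 2 * A0) +
      2 * ∑ i, ∑ j, ∑ t ∈ T, W (Nat.dist (a i + t) (a j)) ^ p := by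
    have e : ∑ i, ∑ j, ∑ t ∈ T, W (Nat.dist (a i + t) (a j)) ^ p =
        ∑ t ∈ T, ∑ i, ∑ j, W (Nat.dist (a i + t) (a j)) ^ p := by
      calc ∑ i, ∑ j, ∑ t ∈ T, W (Nat.dist (a i + t) (a j)) ^ p =
            ∑ i, ∑ t ∈ T, ∑ j, W (Nat.dist (a i + t) (a j)) ^ p :=
            Finset.sum_congr rfl fun i _ => Finset.sum_comm
        _ = _ := Finset.sum_comm
    rw [e, Finset.mul_sum T, ← Finset.sum_add_distrib]
    refine Finset.sum_congr rfl fun t ht => ?_
    rw [hT, Finset.mem_filter] at ht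
    exact wt_st ha p t ht.2
  have h2 : ∑ _t ∈ T, (1 + 2 * A0) ≤ (2 * H) * (1 + 2 * A0) := by
    rw [Finset.sum_const, nsmul_eq_mul]
    refine mul_le_mul_of_nonneg_right ?_ (by positivity)
    have : T.card ≤ (range (H + 1)).card := Finset.card_le_card (Finset.filter_subset _ _)
    rw [Finset.card_range] at this
    have h3 : (T.card : ℝ) ≤ H + 1 := by exact_mod_cast this
    linarith
  have h3 : ∑ i, ∑ j, ∑ t ∈ T, W (Nat.dist (a i + t) (a j)) ^ p ≤ k * (k * (C * H)) := by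
    have h4 : ∀ i j : Fin k, ∑ t ∈ T, W (Nat.dist (a i + t) (a j)) ^ p ≤ C * H := by
      intro i j
      have hk : k ≠ 0 := by
        rintro rfl
        exact i.elim0
      have hai := a_le_sum a i
      have haj := a_le_sum a j
      refine le_trans ?_ (h Y hY (a i) H (by omega) (hlog hk) hH (a j) (by omega))
      have e : ∑ b ∈ T.image (fun t => a i + t), W (Nat.dist b (a j)) ^ p =
          ∑ t ∈ T, W (Nat.dist (a i + t) (a j)) ^ p :=
        Finset.sum_image fun x _ y _ hxy => Nat.add_left_cancel hxy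
      rw [← e]
      refine Finset.sum_le_sum_of_subset_of_nonneg ?_ fun _ _ _ => W_pow_nonneg _ _
      intro b hb
      rw [Finset.mem_image] at hb
      obtain ⟨t, ht, rfl⟩ := hb
      rw [hT, Finset.mem_filter, Finset.mem_range] at ht
      rw [Finset.mem_filter, Finset.mem_Ioc]
      have h5 := ht.2 i j
      have h6 := ht.2 i i
      refine ⟨⟨by omega, by omega⟩, h5⟩
    calc ∑ i, ∑ j, ∑ t ∈ T, W (Nat.dist (a i + t) (a j)) ^ p ≤ ∑ _i : Fin k, ∑ _j : Fin k, C * H :=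
          Finset.sum_le_sum fun i _ => Finset.sum_le_sum fun j _ => h4 i j
      _ = k * (k * (C * H)) := by
          simp only [Finset.sum_const, Finset.card_univ, Fintype.card_fin, nsmul_eq_mul]
  rw [h1]
  nlinarith

theorem sum_inj_le {ι κ : Type*} [DecidableEq κ] (S : Finset ι) (T : Finset κ) (Φ : ι → κ) (hinj : Set.InjOn Φ S)
    (hmaps : ∀ x ∈ S, Φ x ∈ T) (F : κ → ℝ) (hF : ∀ y, 0 ≤ F y) : ∑ x ∈ S, F (Φ x) ≤ ∑ y ∈ T, F y := by
  rw [← Finset.sum_image hinj]
  refine Finset.sum_le_sum_of_subset_of_nonneg ?_ fun y _ _ => hF y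
  intro y hy
  rw [Finset.mem_image] at hy
  obtain ⟨x, hx, rfl⟩ := hy
  exact hmaps x hx

/-- The correlations. -/
noncomputable def QQ {k r : ℕ} (a : Fin k → ℕ) (X : ℕ) (b b' : Fin r → ℕ) (t : ℕ) : ℝ :=
  ∑ n ∈ Icc 1 X, GG a n * GG b n * (GG a (n + t) * GG b' (n + t))

theorem QQ_nonneg {k r : ℕ} (a : Fin k → ℕ) (X : ℕ) (b b' : Fin r → ℕ) (t : ℕ) : 0 ≤ QQ a X b b' t :=
  Finset.sum_nonneg fun _ _ => mul_nonneg (mul_nonneg (GG_nonneg _ _) (GG_nonneg _ _))
    (mul_nonneg (GG_nonneg _ _) (GG_nonneg _ _))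

/-- The pair of tuples. -/
def ph {r : ℕ} (t : ℕ) (x : (Fin r → ℕ) × (Fin r → ℕ)) : Fin (r + r) → ℕ := Fin.append x.1 (fun j => x.2 j + t)

theorem ph_inj {r : ℕ} (t : ℕ) : Function.Injective (ph (r := r) t) := by
  intro x y h
  unfold ph at h
  refine Prod.ext ?_ ?_
  · funext j
    have := congrFun h (Fin.castAdd r j)
    rwa [Fin.append_left, Fin.append_left] at this
  · funext j
    have := congrFun h (Fin.natAdd r j)
    rw [Fin.append_right, Fin.append_right] at this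
    exact Nat.add_right_cancel this

theorem GG_ph {r : ℕ} (t : ℕ) (x : (Fin r → ℕ) × (Fin r → ℕ)) (n : ℕ) :
    GG (ph t x) n = GG x.1 n * GG x.2 (n + t) := by
  rw [← GG_add]
  unfold GG ph
  rw [Fin.prod_univ_add]
  simp only [Fin.append_left, Fin.append_right]

theorem ph_mem {r : ℕ} (t : ℕ) (z N : Fin r → ℕ) (x : (Fin r → ℕ) × (Fin r → ℕ)) (hx : x ∈ box z N ×ˢ box z N) :
    ph t x ∈ box (Fin.append z (fun j => z j + t)) (Fin.append N N) := by
  rw [Finset.mem_product, mem_box, mem_box] at hx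
  rw [mem_box]
  intro i
  unfold ph
  refine Fin.addCases (fun j => ?_) (fun j => ?_) i
  · rw [Fin.append_left, Fin.append_left, Fin.append_left]
    exact hx.1 j
  · rw [Fin.append_right, Fin.append_right, Fin.append_right]
    have := hx.2 j
    omega

theorem sum_ph_le {r : ℕ} (t : ℕ) (z N : Fin r → ℕ) (F : (Fin (r + r) → ℕ) → ℝ) (hF : ∀ y, 0 ≤ F y) :
    ∑ x ∈ box z N ×ˢ box z N, F (ph t x) ≤ ∑ β ∈ box (Fin.append z (fun j => z j + t)) (Fin.append N N), F β :=
  sum_inj_le _ _ (ph t) ((ph_inj t).injOn) (ph_mem t z N) F hF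

theorem QQ_good {k r : ℕ} {a : Fin k → ℕ} (ha : Function.Injective a) (X Y t : ℕ) (hXY : X ≤ Y)
    (ht : ∀ i j, a i + t ≠ a j) (x : (Fin r → ℕ) × (Fin r → ℕ)) :
    QQ a X x.1 x.2 t ≤ FF Y (st a t) (ph t x) := by
  unfold QQ FF
  calc ∑ n ∈ Icc 1 X, GG a n * GG x.1 n * (GG a (n + t) * GG x.2 (n + t)) =
        ∑ n ∈ Icc 1 X, PS (st a t) n * GG (ph t x) n := by
        refine Finset.sum_congr rfl fun n _ => ?_
        rw [PS_st ha t ht, GG_ph]
        ring
    _ ≤ _ := Finset.sum_le_sum_of_subset_of_nonneg (Finset.Icc_subset_Icc_right hXY)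
        fun n _ _ => mul_nonneg (PS_nonneg _ _) (GG_nonneg _ _)

theorem QQ_bad {k r : ℕ} {a : Fin k → ℕ} (ha : Function.Injective a) (X Y t : ℕ) (hXY : X ≤ Y) (hY : 2 ≤ Y)
    (ht : ∑ i, a i + t ≤ Y) (x : (Fin r → ℕ) × (Fin r → ℕ)) :
    QQ a X x.1 x.2 t ≤ (2 * Real.log Y) ^ k * FF Y (univ.image a) (ph t x) := by
  have hlog : 0 ≤ Real.log Y := Real.log_nonneg (by exact_mod_cast (by omega : 1 ≤ Y))
  have hG : ∀ n ∈ Icc 1 Y, GG a (n + t) ≤ (2 * Real.log Y) ^ k := by
    intro n hn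
    unfold GG
    calc ∏ i, ArithmeticFunction.vonMangoldt (n + t + a i) ≤ ∏ _i : Fin k, (2 * Real.log Y) := by
          refine Finset.prod_le_prod (fun _ _ => ArithmeticFunction.vonMangoldt_nonneg) fun i _ => ?_
          rw [add_assoc]
          have := a_le_sum a i
          exact vm_le Y n (t + a i) hY hn (by omega)
      _ = _ := by rw [Finset.prod_const, Finset.card_univ, Fintype.card_fin]
  unfold QQ FF
  calc ∑ n ∈ Icc 1 X, GG a n * GG x.1 n * (GG a (n + t) * GG x.2 (n + t)) ≤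
        ∑ n ∈ Icc 1 Y, GG a n * GG x.1 n * (GG a (n + t) * GG x.2 (n + t)) :=
        Finset.sum_le_sum_of_subset_of_nonneg (Finset.Icc_subset_Icc_right hXY)
          fun n _ _ => mul_nonneg (mul_nonneg (GG_nonneg _ _) (GG_nonneg _ _))
            (mul_nonneg (GG_nonneg _ _) (GG_nonneg _ _))
    _ ≤ ∑ n ∈ Icc 1 Y, (2 * Real.log Y) ^ k * (PS (univ.image a) n * GG (ph t x) n) := by
        refine Finset.sum_le_sum fun n hn => ?_
        rw [PS_image ha, GG_ph]
        have h1 := hG n hn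
        have h2 : 0 ≤ GG a n * GG x.1 n * GG x.2 (n + t) :=
          mul_nonneg (mul_nonneg (GG_nonneg _ _) (GG_nonneg _ _)) (GG_nonneg _ _)
        calc GG a n * GG x.1 n * (GG a (n + t) * GG x.2 (n + t)) =
              GG a (n + t) * (GG a n * GG x.1 n * GG x.2 (n + t)) := by ring
          _ ≤ (2 * Real.log Y) ^ k * (GG a n * GG x.1 n * GG x.2 (n + t)) := mul_le_mul_of_nonneg_right h1 h2
          _ = _ := by ring
    _ = _ := by rw [Finset.mul_sum]

open Classical in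
/-- The sum over the pairs. -/
theorem pairs {k : ℕ} (r : ℕ) (a : Fin k → ℕ) (ha : Function.Injective a) : ∃ C : ℝ, 0 < C ∧
    ∀ Y X H : ℕ, 3 ≤ Y → X ≤ Y → 1 ≤ H → ∑ i, a i + H ≤ Y → ∀ z N : Fin r → ℕ, (∀ j, z j + N j + H ≤ Y) →
    (∀ j, 1 ≤ N j) → ∀ κ η : ℝ, 0 ≤ κ → κ ≤ 1 → 0 ≤ η → (∀ j, Real.log Y ≤ κ * N j) →
    (k ≠ 0 → Real.log Y ^ k ≤ κ * H) → ∀ R : (Fin r → ℕ) → (Fin r → ℕ) → ℕ → ℝ, (∀ b b' t, 0 ≤ R b b' t) →
    (∀ b b' t, R b b' t ≤ H) →
    ∑ t ∈ range (H + 1), ∑ x ∈ box z N ×ˢ box z N, R x.1 x.2 t ^ 2 ≤ η ^ 2 * (∏ j, (N j : ℝ)) ^ 2 * H ^ 3 →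
    ∑ t ∈ range (H + 1), ∑ x ∈ box z N ×ˢ box z N, R x.1 x.2 t * QQ a X x.1 x.2 t ≤
      C * (κ + η) * Y * (∏ j, (N j : ℝ)) ^ 2 * H ^ 2 := by
  set M : ℕ := 2 * k + (r + r) with hM
  set p : ℕ := 2 * M ^ 3 with hp
  obtain ⟨C1, hC1, h1⟩ := moments M p le_rfl (r + r) (2 * k) le_rfl
  obtain ⟨C2, hC2, h2⟩ := moments M p le_rfl (r + r) k (by omega)
  obtain ⟨C3, hC3, h3⟩ := sum_wt_st ha p
  set w0 : ℝ := wt p (univ.image a) with hw0
  have hw01 : 1 ≤ w0 := one_le_wt _ _
  refine ⟨(1 + k ^ 2) * (2 ^ k * C2 * w0) + C1 * C3 + √(C1 * C3), by positivity,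
    fun Y X H hY hXY hH hAY z N hz hN κ η hκ hκ1 hη hκN hκH R hR0 hRH hRsq => ?_⟩
  set Q : ℝ := ∏ j, (N j : ℝ) with hQ
  have hQ0 : 0 ≤ Q := Finset.prod_nonneg fun _ _ => Nat.cast_nonneg _
  have hYR : (3 : ℝ) ≤ Y := by exact_mod_cast hY
  have hY0 : (0 : ℝ) ≤ Y := by linarith
  have hlog1 : 1 ≤ Real.log Y := by
    rw [Real.le_log_iff_exp_le (by linarith)]
    exact (Real.exp_one_lt_d9.le.trans (by norm_num)).trans hYR
  have hHR : (1 : ℝ) ≤ H := by exact_mod_cast hH
  have hH0 : (0 : ℝ) ≤ H := by linarith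
  have hprod : ∏ i, ((Fin.append N N i : ℕ) : ℝ) = Q ^ 2 := by
    rw [Fin.prod_univ_add]
    simp only [Fin.append_left, Fin.append_right]
    rw [sq]
  have hzt : ∀ t ∈ range (H + 1), ∀ i, Fin.append z (fun j => z j + t) i + Fin.append N N i ≤ Y := by
    intro t ht i
    rw [Finset.mem_range] at ht
    refine Fin.addCases (fun j => ?_) (fun j => ?_) i
    · rw [Fin.append_left, Fin.append_left]
      have := hz j
      omega
    · rw [Fin.append_right, Fin.append_right]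
      have := hz j
      omega
  have hκN' : ∀ i, Real.log Y ≤ κ * (Fin.append N N i : ℕ) := by
    intro i
    refine Fin.addCases (fun j => ?_) (fun j => ?_) i
    · rw [Fin.append_left]
      exact hκN j
    · rw [Fin.append_right]
      exact hκN j
  have hlogN' : ∀ i, Real.log Y ≤ (Fin.append N N i : ℕ) := by
    intro i
    refine (hκN' i).trans ?_
    exact mul_le_of_le_one_left (Nat.cast_nonneg _) hκ1
  have hN' : ∀ i, 1 ≤ Fin.append N N i := by
    intro i
    refine Fin.addCases (fun j => ?_) (fun j => ?_) i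
    · rw [Fin.append_left]
      exact hN j
    · rw [Fin.append_right]
      exact hN j
  have hst : ∀ t ∈ range (H + 1), ∀ x ∈ st a t, x ≤ Y := by
    intro t ht x hx
    rw [Finset.mem_range] at ht
    unfold st at hx
    rw [Finset.mem_union, Finset.mem_image, Finset.mem_image] at hx
    rcases hx with ⟨i, _, rfl⟩ | ⟨i, _, rfl⟩
    · have := a_le_sum a i
      omega
    · have := a_le_sum a i
      omega
  have him : ∀ x ∈ univ.image a, x ≤ Y := by
    intro x hx
    rw [Finset.mem_image] at hx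
    obtain ⟨i, _, rfl⟩ := hx
    have := a_le_sum a i
    omega
  set T := (range (H + 1)).filter (fun t => ∀ i j, a i + t ≠ a j) with hT
  set T' := (range (H + 1)).filter (fun t => ¬ ∀ i j, a i + t ≠ a j) with hT'
  have hsumT : ∑ t ∈ T, wt p (st a t) ≤ C3 * H := by
    refine h3 Y H (by omega) hH hAY fun hk => ?_
    have e1 := hκH hk
    have e2 : Real.log Y ≤ Real.log Y ^ k := le_self_pow₀ hlog1 hk
    have e3 : κ * (H : ℝ) ≤ H := mul_le_of_le_one_left hH0 hκ1
    linarith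
  rw [← Finset.sum_filter_add_sum_filter_not (range (H + 1)) (fun t => ∀ i j, a i + t ≠ a j)]
  -- the bad differences
  have hbad : ∑ t ∈ T', ∑ x ∈ box z N ×ˢ box z N, R x.1 x.2 t * QQ a X x.1 x.2 t ≤
      (1 + k ^ 2) * (2 ^ k * C2 * w0) * κ * Y * Q ^ 2 * H ^ 2 := by
    rcases Nat.eq_zero_or_pos k with hk | hk
    · have : T' = ∅ := by
        rw [hT']
        refine Finset.filter_eq_empty_iff.2 fun t _ => ?_
        rw [not_not]
        subst hk
        intro i
        exact i.elim0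
      rw [this, Finset.sum_empty]
      positivity
    have hk0 : k ≠ 0 := by omega
    have e1 : ∀ t ∈ T', ∑ x ∈ box z N ×ˢ box z N, R x.1 x.2 t * QQ a X x.1 x.2 t ≤
        H * ((2 ^ k * (κ * H)) * (C2 * Q ^ 2 * Y * w0)) := by
      intro t ht
      rw [hT', Finset.mem_filter] at ht
      have htH := Finset.mem_range.1 ht.1
      have e2 := (h2 Y (by omega) (Fin.append z (fun j => z j + t)) (Fin.append N N) (hzt t ht.1) hlogN' hN'
        (univ.image a) (image_card ha) him).1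
      rw [hprod] at e2
      calc ∑ x ∈ box z N ×ˢ box z N, R x.1 x.2 t * QQ a X x.1 x.2 t ≤
            ∑ x ∈ box z N ×ˢ box z N, H * ((2 * Real.log Y) ^ k * FF Y (univ.image a) (ph t x)) := by
            refine Finset.sum_le_sum fun x _ => ?_
            exact mul_le_mul (hRH _ _ _) (QQ_bad ha X Y t hXY (by omega) (by omega) x) (QQ_nonneg _ _ _ _ _) hH0
        _ = H * ((2 * Real.log Y) ^ k * ∑ x ∈ box z N ×ˢ box z N, FF Y (univ.image a) (ph t x)) := by
            rw [Finset.mul_sum, Finset.mul_sum]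
        _ ≤ H * ((2 ^ k * (κ * H)) * (C2 * Q ^ 2 * Y * w0)) := by
            refine mul_le_mul_of_nonneg_left ?_ hH0
            have e4 : ∑ x ∈ box z N ×ˢ box z N, FF Y (univ.image a) (ph t x) ≤ C2 * Q ^ 2 * Y * w0 :=
              (sum_ph_le t z N (fun β => FF Y (univ.image a) β) fun β => FF_nonneg _ _ β).trans e2
            have e5 : (2 * Real.log Y) ^ k ≤ 2 ^ k * (κ * H) := by
              rw [mul_pow]
              exact mul_le_mul_of_nonneg_left (hκH hk0) (by positivity)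
            exact mul_le_mul e5 e4 (Finset.sum_nonneg fun _ _ => FF_nonneg _ _ _) (by positivity)
    refine (Finset.sum_le_sum e1).trans ?_
    rw [Finset.sum_const, nsmul_eq_mul]
    have e2 : T'.card ≤ 1 + k ^ 2 := by
      have e3 : T' ⊆ {0} ∪ (Icc 1 H).filter (fun t => ¬ ∀ i j, a i + t ≠ a j) := by
        intro t ht
        rw [hT', Finset.mem_filter, Finset.mem_range] at ht
        rw [Finset.mem_union, Finset.mem_singleton, Finset.mem_filter, Finset.mem_Icc]
        by_cases h0 : t = 0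
        · exact Or.inl h0
        · exact Or.inr ⟨⟨by omega, by omega⟩, ht.2⟩
      refine (Finset.card_le_card e3).trans ((Finset.card_union_le _ _).trans ?_)
      have := card_bad_le a H
      rw [Finset.card_singleton]
      omega
    have e3 : (T'.card : ℝ) ≤ 1 + k ^ 2 := by exact_mod_cast e2
    refine (mul_le_mul_of_nonneg_right e3 (by positivity)).trans (le_of_eq ?_)
    ring
  -- the good differences
  have hgood : ∀ t ∈ T, ∑ x ∈ box z N ×ˢ box z N, R x.1 x.2 t * QQ a X x.1 x.2 t ≤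
      ∑ x ∈ box z N ×ˢ box z N, R x.1 x.2 t * (if Gd (st a t) (ph t x) then FF Y (st a t) (ph t x) else 0) +
      H * (C1 * κ * Q ^ 2 * Y * wt p (st a t)) := by
    intro t ht
    rw [hT, Finset.mem_filter] at ht
    have e2 := (h1 Y (by omega) (Fin.append z (fun j => z j + t)) (Fin.append N N) (hzt t ht.1) hlogN' hN'
        (st a t) (st_card ha t ht.2) (hst t ht.1)).2.1 κ hκ hκN'
    rw [hprod] at e2
    calc ∑ x ∈ box z N ×ˢ box z N, R x.1 x.2 t * QQ a X x.1 x.2 t ≤
          ∑ x ∈ box z N ×ˢ box z N, (R x.1 x.2 t *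
            (if Gd (st a t) (ph t x) then FF Y (st a t) (ph t x) else 0) +
            H * (if Gd (st a t) (ph t x) then 0 else FF Y (st a t) (ph t x))) := by
          refine Finset.sum_le_sum fun x _ => ?_
          have e3 := QQ_good ha X Y t hXY ht.2 x
          have e4 : 0 ≤ FF Y (st a t) (ph t x) := FF_nonneg _ _ _
          by_cases hG : Gd (st a t) (ph t x)
          · rw [if_pos hG, if_pos hG, mul_zero, add_zero]
            exact mul_le_mul_of_nonneg_left e3 (hR0 _ _ _)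
          · rw [if_neg hG, if_neg hG, mul_zero, zero_add]
            exact mul_le_mul (hRH _ _ _) e3 (QQ_nonneg _ _ _ _ _) hH0
      _ = _ + H * ∑ x ∈ box z N ×ˢ box z N, (if Gd (st a t) (ph t x) then 0 else FF Y (st a t) (ph t x)) := by
          rw [Finset.sum_add_distrib, ← Finset.mul_sum]
      _ ≤ _ := by
          refine add_le_add le_rfl (mul_le_mul_of_nonneg_left ?_ hH0)
          refine le_trans (sum_ph_le t z N (fun β => if Gd (st a t) β then 0 else FF Y (st a t) β) fun β => ?_) e2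
          split_ifs
          · exact le_rfl
          · exact FF_nonneg _ _ _
  have hmain : ∑ t ∈ T, ∑ x ∈ box z N ×ˢ box z N,
      R x.1 x.2 t * (if Gd (st a t) (ph t x) then FF Y (st a t) (ph t x) else 0) ≤
        √(C1 * C3) * η * Y * Q ^ 2 * H ^ 2 := by
    rw [Finset.sum_sigma']
    refine (abs_le_of_sq_le_sq' ?_ (by positivity)).2
    refine (Finset.sum_mul_sq_le_sq_mul_sq _ _ _).trans ?_
    rw [← Finset.sum_sigma' T (fun _ => box z N ×ˢ box z N) (fun t x => R x.1 x.2 t ^ 2),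
      ← Finset.sum_sigma' T (fun _ => box z N ×ˢ box z N)
        (fun t x => (if Gd (st a t) (ph t x) then FF Y (st a t) (ph t x) else 0) ^ 2)]
    have e1 : ∑ t ∈ T, ∑ x ∈ box z N ×ˢ box z N, R x.1 x.2 t ^ 2 ≤ η ^ 2 * Q ^ 2 * H ^ 3 :=
      (Finset.sum_le_sum_of_subset_of_nonneg (Finset.filter_subset _ _)
        fun _ _ _ => Finset.sum_nonneg fun _ _ => sq_nonneg _).trans hRsq
    have e2 : ∑ t ∈ T, ∑ x ∈ box z N ×ˢ box z N,
        (if Gd (st a t) (ph t x) then FF Y (st a t) (ph t x) else 0) ^ 2 ≤ (C1 * Q ^ 2 * Y ^ 2) * (C3 * H) := by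
      calc _ ≤ ∑ t ∈ T, (C1 * Q ^ 2 * Y ^ 2) * wt p (st a t) := by
            refine Finset.sum_le_sum fun t ht => ?_
            rw [hT, Finset.mem_filter] at ht
            have e3 := (h1 Y (by omega) (Fin.append z (fun j => z j + t)) (Fin.append N N) (hzt t ht.1) hlogN' hN'
              (st a t) (st_card ha t ht.2) (hst t ht.1)).2.2
            rw [hprod] at e3
            refine le_trans ?_ e3
            refine le_trans (le_of_eq ?_) (sum_ph_le t z N
              (fun β => if Gd (st a t) β then FF Y (st a t) β ^ 2 else 0) fun β => ?_)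
            · refine Finset.sum_congr rfl fun x _ => ?_
              by_cases hG : Gd (st a t) (ph t x)
              · rw [if_pos hG, if_pos hG]
              · rw [if_neg hG, if_neg hG]
                norm_num
            · split_ifs
              · positivity
              · exact le_rfl
        _ = (C1 * Q ^ 2 * Y ^ 2) * ∑ t ∈ T, wt p (st a t) := by rw [Finset.mul_sum]
        _ ≤ _ := mul_le_mul_of_nonneg_left hsumT (by positivity)
    refine (mul_le_mul e1 e2 (Finset.sum_nonneg fun _ _ => Finset.sum_nonneg fun _ _ => sq_nonneg _)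
      (by positivity)).trans (le_of_eq ?_)
    have e3 : √(C1 * C3) ^ 2 = C1 * C3 := Real.sq_sqrt (by positivity)
    calc η ^ 2 * Q ^ 2 * H ^ 3 * (C1 * Q ^ 2 * Y ^ 2 * (C3 * H)) =
          (C1 * C3) * (η * Y * Q ^ 2 * H ^ 2) ^ 2 := by ring
      _ = √(C1 * C3) ^ 2 * (η * Y * Q ^ 2 * H ^ 2) ^ 2 := by rw [e3]
      _ = _ := by ring
  have hgood2 : ∑ t ∈ T, ∑ x ∈ box z N ×ˢ box z N, R x.1 x.2 t * QQ a X x.1 x.2 t ≤
      √(C1 * C3) * η * Y * Q ^ 2 * H ^ 2 + C1 * C3 * κ * Y * Q ^ 2 * H ^ 2 := by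
    refine (Finset.sum_le_sum hgood).trans ?_
    rw [Finset.sum_add_distrib]
    refine add_le_add hmain ?_
    calc ∑ t ∈ T, (H : ℝ) * (C1 * κ * Q ^ 2 * Y * wt p (st a t)) =
          (H * (C1 * κ * Q ^ 2 * Y)) * ∑ t ∈ T, wt p (st a t) := by
          rw [Finset.mul_sum]
          refine Finset.sum_congr rfl fun t _ => ?_
          ring
      _ ≤ (H * (C1 * κ * Q ^ 2 * Y)) * (C3 * H) := mul_le_mul_of_nonneg_left hsumT (by positivity)
      _ = _ := by ring
  refine (add_le_add hgood2 hbad).trans ?_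
  have hs : 0 ≤ √(C1 * C3) := Real.sqrt_nonneg _
  have hZ : 0 ≤ (Y : ℝ) * Q ^ 2 * H ^ 2 := by positivity
  have e : ((1 + (k : ℝ) ^ 2) * (2 ^ k * C2 * w0) + C1 * C3 + √(C1 * C3)) * (κ + η) * Y * Q ^ 2 * H ^ 2 =
      √(C1 * C3) * η * Y * Q ^ 2 * H ^ 2 + C1 * C3 * κ * Y * Q ^ 2 * H ^ 2 +
        (1 + (k : ℝ) ^ 2) * (2 ^ k * C2 * w0) * κ * Y * Q ^ 2 * H ^ 2 +
      (((1 + (k : ℝ) ^ 2) * (2 ^ k * C2 * w0) + C1 * C3) * η + √(C1 * C3) * κ) * (Y * Q ^ 2 * H ^ 2) := by ring
  rw [e]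
  have hlast : 0 ≤ (((1 + (k : ℝ) ^ 2) * (2 ^ k * C2 * w0) + C1 * C3) * η + √(C1 * C3) * κ) *
      (Y * Q ^ 2 * H ^ 2) := by positivity
  linarith

end Pool.Agent.Helper83.HLD
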